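import Pool.Agent.KUM.Stmts

/-!
# Abelian covers (MP_fa3f7f_ag): the divisors of the coefficients of the system
-/

set_option autoImplicit false

namespace KUM

open MldX MMCI MMCX RMX

noncomputable section

namespace CFN

/-! ### orders -/

section Ord

variable {F : Type} [Field F] [Algebra ℂ F] {b : ℕ}

theorem ord_one (v : DivVal b F) : v.ord 1 = 0 := by
  have h := v.ord_const 1
  rwa [map_one] at h

theorem ord_neg (v : DivVal b F) (z : F) : v.ord (-z) = v.ord z := by
  by_cases hz : z = 0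
  · rw [hz, neg_zero]
  · have h := v.ord_const (-1)
    rw [map_neg, map_one] at h
    have h1 := v.ord_mul (-1) z (neg_ne_zero.2 one_ne_zero) hz
    rw [neg_one_mul, h, zero_add] at h1
    exact h1

theorem ord_inv (v : DivVal b F) {z : F} (hz : z ≠ 0) : v.ord z⁻¹ = -v.ord z := by
  have h := v.ord_mul z z⁻¹ hz (inv_ne_zero hz)
  rw [mul_inv_cancel₀ hz, ord_one] at h
  linarith

theorem ord_unit {B : ProjModel F} {j : Fin (B.N + 1)} {v : DivVal b F} {P : Ideal (B.ring j)}
    (h : IsPrimeDivisor (B.ring j) v P) {ε : B.ring j} (hε : IsUnit ε) : v.ord (ε : F) = 0 := by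
  obtain ⟨u, rfl⟩ := hε
  have h1 : ((u : B.ring j) : F) * ((u⁻¹ : (B.ring j)ˣ) : B.ring j) = 1 := by
    have h0 : (u : B.ring j) * ((u⁻¹ : (B.ring j)ˣ) : B.ring j) = 1 := u.mul_inv
    exact_mod_cast congrArg (Subtype.val : B.ring j → F) h0
  have h2 : ((u : B.ring j) : F) ≠ 0 := fun h0 => by rw [h0, zero_mul] at h1; exact zero_ne_one h1
  have h3 : (((u⁻¹ : (B.ring j)ˣ) : B.ring j) : F) ≠ 0 := fun h0 => by
    rw [h0, mul_zero] at h1; exact zero_ne_one h1
  have h4 := v.ord_mul _ _ h2 h3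
  rw [h1, ord_one] at h4
  have h5 := h.1.2.1 (u : B.ring j)
  have h6 := h.1.2.1 ((u⁻¹ : (B.ring j)ˣ) : B.ring j)
  omega

end Ord

/-! ### monomials -/

section Mon

variable {F : Type} [Field F]

theorem mon_zero {n : ℕ} (x : Fin n → F) : mon x 0 = 1 := by
  unfold mon
  exact Finset.prod_eq_one fun i _ => by rw [Pi.zero_apply, zpow_zero]

theorem mon_ne {n : ℕ} {x : Fin n → F} (hx : ∀ j, x j ≠ 0) (a : Fin n → ℤ) : mon x a ≠ 0 :=
  Finset.prod_ne_zero_iff.2 fun k _ => zpow_ne_zero _ (hx k)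

theorem mon_single {n : ℕ} (x : Fin n → F) (s : Fin n) (k : ℤ) :
    mon x (Pi.single s k) = x s ^ k := by
  unfold mon
  rw [Finset.prod_eq_single s]
  · rw [Pi.single_eq_same]
  · intro i _ hi
    rw [Pi.single_eq_of_ne hi, zpow_zero]
  · intro h
    exact absurd (Finset.mem_univ _) h

variable [Algebra ℂ F] {q n0 w r0 : ℕ}

theorem ex_q (κ : Fin q → ℤ) (a : Fin n0 → ℤ) (μ : Fin w → ℤ) (s : Fin q) :
    ex κ a μ (Fin.castAdd _ s) = κ s := by
  unfold ex
  rw [Fin.append_left]

theorem ex_x (κ : Fin q → ℤ) (a : Fin n0 → ℤ) (μ : Fin w → ℤ) (k : Fin n0) :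
    ex κ a μ (Fin.natAdd q (Fin.castAdd w k)) = a k := by
  unfold ex
  rw [Fin.append_right, Fin.append_left]

theorem ex_u (κ : Fin q → ℤ) (a : Fin n0 → ℤ) (μ : Fin w → ℤ) (k : Fin w) :
    ex κ a μ (Fin.natAdd q (Fin.natAdd n0 k)) = μ k := by
  unfold ex
  rw [Fin.append_right, Fin.append_right]

theorem ex_inj {κ κ' : Fin q → ℤ} {a a' : Fin n0 → ℤ} {μ μ' : Fin w → ℤ}
    (h : ex κ a μ = ex κ' a' μ') : κ = κ' ∧ a = a' ∧ μ = μ' := by
  refine ⟨funext fun s => ?_, funext fun k => ?_, funext fun k => ?_⟩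
  · rw [← ex_q κ a μ s, h, ex_q]
  · rw [← ex_x κ a μ k, h, ex_x]
  · rw [← ex_u κ a μ k, h, ex_u]

theorem ex_zero : (ex 0 0 0 : Fin (q + (n0 + w)) → ℤ) = 0 := by
  funext i
  refine Fin.addCases (fun s => ?_) (fun i => ?_) i
  · rw [ex_q]; rfl
  · refine Fin.addCases (fun s => ?_) (fun i => ?_) i
    · rw [ex_x]; rfl
    · rw [ex_u]; rfl

theorem mon_tt (B : ProjModel F) (d : (j : Fin (B.N + 1)) → Fin q → B.ring j)
    (E : Fin (B.N + 1) → Fin w → F) (j : Fin (B.N + 1)) (κ : Fin q → ℤ) (a : Fin n0 → ℤ)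
    (μ : Fin w → ℤ) :
    mon (tt n0 B d E j) (ex κ a μ) = (mon (fun s => (d j s : F)) κ)⁻¹ * mon (E j) μ := by
  unfold mon tt
  rw [Fin.prod_univ_add, Fin.prod_univ_add]
  simp only [ex_q, ex_x, ex_u, Fin.append_left, Fin.append_right, one_zpow,
    Finset.prod_const_one, one_mul, inv_zpow, Finset.prod_inv_distrib]

theorem tt_ne (B : ProjModel F) (d : (j : Fin (B.N + 1)) → Fin q → B.ring j)
    (E : Fin (B.N + 1) → Fin w → F) (hd : ∀ j s, d j s ≠ 0) (hE : ∀ j a, E j a ≠ 0)
    (j : Fin (B.N + 1)) (k : Fin (q + (n0 + w))) : tt n0 B d E j k ≠ 0 := by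
  unfold tt
  refine Fin.addCases (fun s => ?_) (fun i => ?_) k
  · rw [Fin.append_left]
    exact inv_ne_zero fun h => hd j s (Subtype.ext h)
  · rw [Fin.append_right]
    refine Fin.addCases (fun s => ?_) (fun i => ?_) i
    · rw [Fin.append_left]
      exact one_ne_zero
    · rw [Fin.append_right]
      exact hE j i

end Mon

/-! ### coefficients -/

section Coeff

variable {F : Type} [Field F] {n : ℕ}

theorem coeff_polyT (t : Fin n → F) (f : LaurentR F n) (a : Fin n → ℤ) :
    (polyT t f).coeff a = f.coeff a * mon t a := by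
  unfold polyT
  rw [AddMonoidAlgebra.coeff_finsuppSum, Finsupp.sum_apply, Finsupp.sum]
  by_cases ha : a ∈ f.coeff.support
  · rw [Finset.sum_eq_single_of_mem a ha]
    · rw [AddMonoidAlgebra.coeff_single, Finsupp.single_eq_same]
    · intro b _ hb
      rw [AddMonoidAlgebra.coeff_single, Finsupp.single_apply, if_neg hb]
  · rw [Finset.sum_eq_zero]
    · rw [Finsupp.notMem_support_iff.1 ha, zero_mul]
    · intro b hb
      have hba : b ≠ a := fun h => ha (h ▸ hb)
      rw [AddMonoidAlgebra.coeff_single, Finsupp.single_apply, if_neg hba]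

theorem supp_polyT {t : Fin n → F} (ht : ∀ k, t k ≠ 0) (f : LaurentR F n) :
    (polyT t f).coeff.support = f.coeff.support := by
  ext a
  rw [Finsupp.mem_support_iff, Finsupp.mem_support_iff, coeff_polyT]
  constructor
  · intro h h0
    exact h (by rw [h0, zero_mul])
  · intro h
    exact mul_ne_zero h (mon_ne ht a)

theorem divOrd_eq [Algebra ℂ F] {b r : ℕ} (ω : Forms b F) {t : Fin n → F} (ht : ∀ k, t k ≠ 0)
    (f : Fin r → LaurentR F n) (i : Fin r) (a : Fin n → ℤ) (v : DivVal b F) (m : ℤ)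
    (hm : IsLeast ((fun a => v.ord ((f i).coeff a * mon t a)) '' ((f i).coeff.support :
      Set (Fin n → ℤ))) m) :
    divOrdT ω t f 0 (Pi.single i 1) a v = -m + v.ord (mon t a) := by
  unfold divOrdT
  rw [Finset.sum_eq_single i]
  · rw [Pi.single_eq_same, supp_polyT ht]
    simp only [coeff_polyT]
    rw [hm.csInf_eq]
    push_cast
    ring
  · intro i' _ hi'
    rw [Pi.single_eq_of_ne hi']
    push_cast
    ring
  · intro h
    exact absurd (Finset.mem_univ _) h

/-- a difference of two terms -/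
theorem two_terms {a₁ a₂ : Fin n → ℤ} (hne : a₁ ≠ a₂) {z₁ z₂ : F} (h₁ : z₁ ≠ 0) (h₂ : z₂ ≠ 0) :
    (AddMonoidAlgebra.single a₁ z₁ - AddMonoidAlgebra.single a₂ z₂ : LaurentR F n).coeff a₁ = z₁ ∧
    (AddMonoidAlgebra.single a₁ z₁ - AddMonoidAlgebra.single a₂ z₂ : LaurentR F n).coeff a₂ =
      -z₂ ∧
    ∀ a, a ∈ (AddMonoidAlgebra.single a₁ z₁ -
      AddMonoidAlgebra.single a₂ z₂ : LaurentR F n).coeff.support ↔ a = a₁ ∨ a = a₂ := by
  have hc : ∀ a, (AddMonoidAlgebra.single a₁ z₁ -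
      AddMonoidAlgebra.single a₂ z₂ : LaurentR F n).coeff a =
      (if a₁ = a then z₁ else 0) - (if a₂ = a then z₂ else 0) := by
    intro a
    rw [AddMonoidAlgebra.coeff_sub, Finsupp.sub_apply, AddMonoidAlgebra.coeff_single,
      AddMonoidAlgebra.coeff_single, Finsupp.single_apply, Finsupp.single_apply]
  refine ⟨?_, ?_, fun a => ?_⟩
  · rw [hc, if_pos rfl, if_neg hne.symm, sub_zero]
  · rw [hc, if_neg hne, if_pos rfl, zero_sub]
  · rw [Finsupp.mem_support_iff, hc]
    constructor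
    · intro h
      by_contra hcon
      push Not at hcon
      rw [if_neg (fun h => hcon.1 h.symm), if_neg (fun h => hcon.2 h.symm), sub_zero] at h
      exact h rfl
    · rintro (rfl | rfl)
      · rw [if_pos rfl, if_neg hne.symm, sub_zero]
        exact h₁
      · rw [if_neg hne, if_pos rfl, zero_sub]
        exact neg_ne_zero.2 h₂

/-- the divisor of the coefficients of a difference of two terms -/
theorem divOrd_two [Algebra ℂ F] {b r : ℕ} (ω : Forms b F) {t : Fin n → F} (ht : ∀ k, t k ≠ 0)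
    (f : Fin r → LaurentR F n) (i : Fin r) (a : Fin n → ℤ) (v : DivVal b F)
    {a₁ a₂ : Fin n → ℤ} (hne : a₁ ≠ a₂) {z₁ z₂ : F} (h₁ : z₁ ≠ 0) (h₂ : z₂ ≠ 0)
    (hf : f i = AddMonoidAlgebra.single a₁ z₁ - AddMonoidAlgebra.single a₂ z₂) :
    divOrdT ω t f 0 (Pi.single i 1) a v =
      -min (v.ord (z₁ * mon t a₁)) (v.ord (z₂ * mon t a₂)) + v.ord (mon t a) := by
  refine divOrd_eq ω ht f i a v _ ?_
  obtain ⟨e1, e2, e3⟩ := two_terms hne h₁ h₂
  rw [hf]
  constructor
  · rcases le_total (v.ord (z₁ * mon t a₁)) (v.ord (z₂ * mon t a₂)) with h | h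
    · refine ⟨a₁, (e3 a₁).2 (Or.inl rfl), ?_⟩
      rw [min_eq_left h]
      simp only [e1]
    · refine ⟨a₂, (e3 a₂).2 (Or.inr rfl), ?_⟩
      rw [min_eq_right h]
      simp only [e2]
      rw [neg_mul, ord_neg]
  · rintro _ ⟨a', ha', rfl⟩
    rcases (e3 a').1 ha' with rfl | rfl
    · simp only [e1]
      exact min_le_left _ _
    · simp only [e2]
      rw [neg_mul, ord_neg]
      exact min_le_right _ _

/-- the coefficients of `up` -/
theorem coeff_up [Algebra ℂ F] {q n0 w : ℕ} (f : Laurent n0) (a' : Fin (q + (n0 + w)) → ℤ)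
    (h : a' ∈ (up (q := q) (w := w) F f).coeff.support) :
    ∃ (a : Fin n0 → ℤ) (c : ℂ), c ≠ 0 ∧ a' = ex 0 a 0 ∧
      (up (q := q) (w := w) F f).coeff a' = algebraMap ℂ F c := by
  have hc : (up (q := q) (w := w) F f).coeff a' =
      ∑ a ∈ f.coeff.support, if ex 0 a 0 = a' then algebraMap ℂ F (f.coeff a) else 0 := by
    unfold up
    rw [AddMonoidAlgebra.coeff_finsuppSum, Finsupp.sum_apply, Finsupp.sum]
    refine Finset.sum_congr rfl fun a _ => ?_
    rw [AddMonoidAlgebra.coeff_single, Finsupp.single_apply]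
  rw [Finsupp.mem_support_iff, hc] at h
  obtain ⟨a, ha, hne⟩ := Finset.exists_ne_zero_of_sum_ne_zero h
  have h1 : ex 0 a 0 = a' := by
    by_contra h1
    exact hne (if_neg h1)
  refine ⟨a, f.coeff a, Finsupp.mem_support_iff.1 ha, h1.symm, ?_⟩
  rw [hc, Finset.sum_eq_single_of_mem a ha, if_pos h1]
  intro b _ hb
  refine if_neg fun h2 => hb ?_
  exact (ex_inj (h2.trans h1.symm)).2.1

end Coeff

/-! ### the three kinds of equations -/

section Main

variable {F : Type} [Field F] [Algebra ℂ F] {b q n0 w r0 : ℕ}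

/-- the divisors are principal, or one of the `D_s` -/
theorem key (B : ProjModel F)
    (d : (j : Fin (B.N + 1)) → Fin q → B.ring j) (E : Fin (B.N + 1) → Fin w → F)
    (f0 : Fin r0 → Laurent n0) (p : Fin w → ℕ) (κ : Fin w → Fin q → ℤ) (lam : Fin w → Fin n0 → ℤ)
    (g : Fin w → F) (hd : ∀ j s, d j s ≠ 0) (hE : ∀ j a, E j a ≠ 0) (hp : ∀ a, 0 < p a)
    (hg : ∀ a, g a ≠ 0)
    (hu : ∀ (j : Fin (B.N + 1)) (a : Fin w), ∃ ε : B.ring j, IsUnit ε ∧
      (ε : F) * mon (fun s => (d j s : F)) (κ a) * E j a ^ p a = g a)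
    (i : Fin (q + (r0 + w))) (a : Fin (q + (n0 + w)) → ℤ)
    (ha : a ∈ (fF f0 p κ lam g i).coeff.support) :
    (∃ h0 : F, h0 ≠ 0 ∧ ∀ (ω : Forms b F) (j : Fin (B.N + 1)) (v : DivVal b F)
      (P : Ideal (B.ring j)), IsPrimeDivisor (B.ring j) v P →
      divOrdT ω (tt n0 B d E j) (fF f0 p κ lam g) 0 (Pi.single i 1) a v = v.ord h0) ∨
    ∃ s : Fin q, ∀ (ω : Forms b F) (j : Fin (B.N + 1)) (v : DivVal b F)
      (P : Ideal (B.ring j)), IsPrimeDivisor (B.ring j) v P →
      divOrdT ω (tt n0 B d E j) (fF f0 p κ lam g) 0 (Pi.single i 1) a v =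
        divOrdT ω (fun s => (d j s : F)) (fun i : Fin 0 => i.elim0) 0 (fun i => i.elim0)
          (Pi.single s 1) v := by
  have htt : ∀ j k, tt n0 B d E j k ≠ 0 := fun j k => tt_ne B d E hd hE j k
  have hdF : ∀ j s, (d j s : F) ≠ 0 := fun j s h => hd j s (Subtype.ext h)
  revert ha
  refine Fin.addCases (fun s => ?_) (fun i' => ?_) i
  · -- the equation of the divisor `D_s`
    intro ha
    have hf : fF f0 p κ lam g (Fin.castAdd (r0 + w) s) =
        AddMonoidAlgebra.single (ex (Pi.single s 1) 0 0) 1 - AddMonoidAlgebra.single 0 1 := by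
      unfold fF sys
      rw [Fin.append_left]
    have hne : (ex (Pi.single s 1) 0 0 : Fin (q + (n0 + w)) → ℤ) ≠ 0 := by
      rw [← ex_zero]
      intro h
      have h1 := congrFun (ex_inj h).1 s
      rw [Pi.single_eq_same, Pi.zero_apply] at h1
      exact one_ne_zero h1
    have hdiv : ∀ (ω : Forms b F) (j : Fin (B.N + 1)) (v : DivVal b F)
        (P : Ideal (B.ring j)), IsPrimeDivisor (B.ring j) v P →
        divOrdT ω (tt n0 B d E j) (fF f0 p κ lam g) 0 (Pi.single (Fin.castAdd (r0 + w) s) 1) a v =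
          v.ord (d j s : F) + v.ord (mon (tt n0 B d E j) a) := by
      intro ω j v P hP
      rw [divOrd_two ω (htt j) _ _ a v hne one_ne_zero one_ne_zero hf, one_mul, one_mul, mon_tt,
        mon_single, zpow_one, mon_zero, mon_zero, mul_one, ord_inv v (hdF j s), ord_one,
        min_eq_left (by have := hP.1.2.1 (d j s); omega)]
      ring
    rw [hf] at ha
    rcases ((two_terms hne one_ne_zero one_ne_zero).2.2 a).1 ha with rfl | rfl
    · left
      refine ⟨1, one_ne_zero, fun ω j v P hP => ?_⟩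
      rw [hdiv ω j v P hP, mon_tt, mon_single, zpow_one, mon_zero, mul_one, ord_inv v (hdF j s),
        ord_one]
      ring
    · right
      refine ⟨s, fun ω j v P hP => ?_⟩
      rw [hdiv ω j v P hP, mon_zero, ord_one]
      unfold divOrdT
      rw [Finset.univ_eq_empty, Finset.sum_empty, mon_single, zpow_one]
      push_cast
      ring
  · refine Fin.addCases (fun i0 => ?_) (fun k => ?_) i'
    · -- the equations over `ℂ`
      intro ha
      left
      refine ⟨1, one_ne_zero, fun ω j v P hP => ?_⟩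
      have hf : fF f0 p κ lam g (Fin.natAdd q (Fin.castAdd w i0)) = up F (f0 i0) := by
        unfold fF sys
        rw [Fin.append_right, Fin.append_left]
      have hval : ∀ a' ∈ (up (q := q) (w := w) F (f0 i0)).coeff.support,
          mon (tt n0 B d E j) a' = 1 ∧
          v.ord ((up (q := q) (w := w) F (f0 i0)).coeff a' * mon (tt n0 B d E j) a') = 0 := by
        intro a' ha'
        obtain ⟨a₀, c, hc, rfl, h2⟩ := coeff_up (f0 i0) a' ha'
        have h3 : mon (tt n0 B d E j) (ex 0 a₀ 0) = 1 := by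
          rw [mon_tt, mon_zero, mon_zero, inv_one, mul_one]
        refine ⟨h3, ?_⟩
        rw [h2, h3, mul_one]
        exact v.ord_const c
      rw [divOrd_eq ω (htt j) _ _ a v 0]
      · rw [hf] at ha
        rw [(hval a ha).1, ord_one]
        ring
      · rw [hf] at ha ⊢
        refine ⟨⟨a, ha, (hval a ha).2⟩, ?_⟩
        rintro _ ⟨a', ha', rfl⟩
        exact (hval a' ha').2.ge
    · -- the roots
      intro ha
      left
      have hf : fF f0 p κ lam g (Fin.natAdd q (Fin.natAdd r0 k)) =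
          AddMonoidAlgebra.single (ex 0 0 (Pi.single k (p k : ℤ))) 1 -
            AddMonoidAlgebra.single (ex (κ k) (lam k) 0) (g k) := by
        unfold fF sys
        rw [Fin.append_right, Fin.append_right]
      have hne : (ex 0 0 (Pi.single k (p k : ℤ)) : Fin (q + (n0 + w)) → ℤ) ≠
          ex (κ k) (lam k) 0 := by
        intro h
        have h1 := congrFun (ex_inj h).2.2 k
        rw [Pi.single_eq_same, Pi.zero_apply] at h1
        have := hp k
        omega
      have hdiv : ∀ (ω : Forms b F) (j : Fin (B.N + 1)) (v : DivVal b F)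
          (P : Ideal (B.ring j)), IsPrimeDivisor (B.ring j) v P →
          v.ord (mon (fun s => (d j s : F)) (κ k)) + v.ord (E j k ^ p k) = v.ord (g k) ∧
          divOrdT ω (tt n0 B d E j) (fF f0 p κ lam g) 0
            (Pi.single (Fin.natAdd q (Fin.natAdd r0 k)) 1) a v =
            -v.ord (E j k ^ p k) + v.ord (mon (tt n0 B d E j) a) := by
        intro ω j v P hP
        obtain ⟨ε, hε, hεg⟩ := hu j k
        have hε0 : (ε : F) ≠ 0 := fun h => by
          rw [h, zero_mul, zero_mul] at hεg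
          exact hg k hεg.symm
        have hm0 : mon (fun s => (d j s : F)) (κ k) ≠ 0 := mon_ne (hdF j) _
        have hE0 : E j k ^ p k ≠ 0 := pow_ne_zero _ (hE j k)
        have h5 : v.ord (mon (fun s => (d j s : F)) (κ k)) + v.ord (E j k ^ p k) =
            v.ord (g k) := by
          rw [← hεg, v.ord_mul _ _ (mul_ne_zero hε0 hm0) hE0, v.ord_mul _ _ hε0 hm0,
            ord_unit hP hε, zero_add]
        refine ⟨h5, ?_⟩
        have e1 : v.ord (1 * mon (tt n0 B d E j) (ex 0 0 (Pi.single k (p k : ℤ)))) =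
            v.ord (E j k ^ p k) := by
          rw [one_mul, mon_tt, mon_zero, inv_one, one_mul, mon_single, zpow_natCast]
        have e2 : v.ord (g k * mon (tt n0 B d E j) (ex (κ k) (lam k) 0)) =
            v.ord (E j k ^ p k) := by
          rw [mon_tt, mon_zero, mul_one, v.ord_mul _ _ (hg k) (inv_ne_zero hm0), ord_inv v hm0,
            ← h5]
          ring
        rw [divOrd_two ω (htt j) _ _ a v hne one_ne_zero (hg k) hf, e1, e2, min_self]
      rw [hf] at ha
      rcases ((two_terms hne one_ne_zero (hg k)).2.2 a).1 ha with rfl | rfl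
      · refine ⟨1, one_ne_zero, fun ω j v P hP => ?_⟩
        rw [(hdiv ω j v P hP).2, mon_tt, mon_zero, inv_one, one_mul, mon_single, zpow_natCast,
          ord_one]
        ring
      · refine ⟨(g k)⁻¹, inv_ne_zero (hg k), fun ω j v P hP => ?_⟩
        have hm0 : mon (fun s => (d j s : F)) (κ k) ≠ 0 := mon_ne (hdF j) _
        rw [(hdiv ω j v P hP).2, mon_tt, mon_zero, mul_one, ord_inv v hm0, ord_inv v (hg k),
          ← (hdiv ω j v P hP).1]
        ring

end Main

end CFN

open CFN in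
theorem t_CFN (hPRN : S_PRN) (hCNG : S_CNG) : S_CFN := by
  intro F _ _ b q n0 w r0 B d E f0 p κ lam g hdim hnorm hd hE hp hg hu
  constructor
  · intro hN i a ha
    rcases key (b := b) B d E f0 p κ lam g hd hE hp hg hu i a ha with ⟨h0, hh0, h⟩ | ⟨s, h⟩
    · exact (hPRN B (tt n0 B d E) (fF f0 p κ lam g) (Pi.single i 1) a h0 hdim hnorm hh0 h).1
    · exact (hCNG B (tt n0 B d E) (fF f0 p κ lam g) (Pi.single i 1) a
        (fun j s => (d j s : F)) (fun i : Fin 0 => i.elim0) (fun i => i.elim0)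
        (Pi.single s 1) h).1 (hN s)
  · intro hN i a ha
    rcases key (b := b) B d E f0 p κ lam g hd hE hp hg hu i a ha with ⟨h0, hh0, h⟩ | ⟨s, h⟩
    · exact (hPRN B (tt n0 B d E) (fF f0 p κ lam g) (Pi.single i 1) a h0 hdim hnorm hh0 h).2
    · exact (hCNG B (tt n0 B d E) (fF f0 p κ lam g) (Pi.single i 1) a
        (fun j s => (d j s : F)) (fun i : Fin 0 => i.elim0) (fun i => i.elim0)
        (Pi.single s 1) h).2 (hN s)

end

end KUM
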