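import Pool.Agent.KUM.Stmts

/-!
# Abelian covers (MP_fa3f7f_ag), module LEQ: local equations
-/

set_option autoImplicit false

namespace KUM

open MldX MMCI MMCX RMX

noncomputable section

namespace LEQ

open Classical in
theorem polyT_coeff {F : Type} [Field F] [Algebra ℂ F] {n : ℕ} (t : Fin n → F)
    (f : LaurentR F n) (b : Fin n → ℤ) : (polyT t f).coeff b = f.coeff b * mon t b := by
  unfold polyT Finsupp.sum
  rw [AddMonoidAlgebra.coeff_sum, Finsupp.finsetSum_apply]
  simp only [AddMonoidAlgebra.coeff_single, Finsupp.single_apply]
  rw [Finset.sum_ite_eq']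
  split_ifs with h
  · rfl
  · rw [Finsupp.notMem_support_iff.1 h, zero_mul]

variable {q n0 w : ℕ}

open Classical in
theorem up_coeff (R : Type) [CommRing R] [Algebra ℂ R] (f : Laurent n0)
    (b : Fin (q + (n0 + w)) → ℤ) :
    (up (q := q) (w := w) R f).coeff b =
      ∑ a ∈ f.coeff.support, if ex 0 a 0 = b then algebraMap ℂ R (f.coeff a) else 0 := by
  unfold up Finsupp.sum
  rw [AddMonoidAlgebra.coeff_sum, Finsupp.finsetSum_apply]
  simp only [AddMonoidAlgebra.coeff_single, Finsupp.single_apply]

theorem ex_inj {κ κ' : Fin q → ℤ} {a a' : Fin n0 → ℤ} {μ μ' : Fin w → ℤ}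
    (h : ex κ a μ = ex κ' a' μ') : κ = κ' ∧ a = a' ∧ μ = μ' := by
  unfold ex at h
  refine ⟨?_, ?_, ?_⟩
  · funext s
    have := congrFun h (Fin.castAdd _ s)
    simpa using this
  · funext s
    have := congrFun h (Fin.natAdd q (Fin.castAdd w s))
    simpa using this
  · funext s
    have := congrFun h (Fin.natAdd q (Fin.natAdd n0 s))
    simpa using this

theorem ex_zero : (0 : Fin (q + (n0 + w)) → ℤ) = ex 0 0 0 := by
  unfold ex
  funext i
  refine Fin.addCases (fun i => ?_) (fun i => ?_) i
  · simp
  · refine Fin.addCases (fun i => ?_) (fun i => ?_) i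
    · simp
    · simp

theorem mon_tt {F : Type} [Field F] (d : Fin q → F) (E : Fin w → F) (κ : Fin q → ℤ)
    (a : Fin n0 → ℤ) (μ : Fin w → ℤ) :
    mon (Fin.append (fun s => (d s)⁻¹) (Fin.append (fun _ : Fin n0 => (1 : F)) E)) (ex κ a μ) =
      (mon d κ)⁻¹ * mon E μ := by
  unfold mon ex
  rw [Fin.prod_univ_add]
  simp only [Fin.append_left, Fin.append_right]
  rw [Fin.prod_univ_add]
  simp only [Fin.append_left, Fin.append_right, one_zpow, Finset.prod_const_one, one_mul]
  rw [← Finset.prod_inv_distrib]
  congr 1
  exact Finset.prod_congr rfl fun s _ => inv_zpow _ _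

theorem mon_single {F : Type} [Field F] {m : ℕ} (x : Fin m → F) (i : Fin m) (k : ℤ) :
    mon x (Pi.single i k) = x i ^ k := by
  unfold mon
  rw [Finset.prod_eq_single i]
  · rw [Pi.single_eq_same]
  · intro j _ hj
    rw [Pi.single_eq_of_ne hj, zpow_zero]
  · intro h
    exact absurd (Finset.mem_univ i) h

theorem mon_zero {F : Type} [Field F] {m : ℕ} (x : Fin m → F) : mon x 0 = 1 := by
  unfold mon
  simp

end LEQ

open LEQ in
open Classical in
theorem t_LEQ : S_LEQ := by
  intro F _ _ q n0 w r0 B d E f0 p κ lam g hd hE hf hp j ε hε m hm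
  have hdF : ∀ s, ((d j s : B.ring j) : F) ≠ 0 := fun s h => hd j s (Subtype.ext h)
  have h1m : (1 : B.ring j) ∉ m := fun h => hm.ne_top ((Ideal.eq_top_iff_one m).2 h)
  have hmon : ∀ κ' : Fin q → ℤ, mon (fun s => (d j s : F)) κ' ≠ 0 := by
    intro κ'
    unfold mon
    exact Finset.prod_ne_zero_iff.2 fun s _ => zpow_ne_zero _ (hdF s)
  intro i
  refine Fin.addCases (fun s => ?_) (fun i => ?_) i
  · -- the equations of the divisors
    constructor
    · refine ⟨(d j s : F)⁻¹, inv_ne_zero (hdF s), ?_⟩
      intro b
      rw [polyT_coeff]
      unfold fF sys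
      simp only [Fin.append_left]
      rw [AddMonoidAlgebra.coeff_sub, AddMonoidAlgebra.coeff_sub]
      simp only [Finsupp.sub_apply, AddMonoidAlgebra.coeff_single, Finsupp.single_apply]
      rw [sub_mul, map_sub, mul_sub]
      congr 1
      · split_ifs with h
        · subst h
          unfold tt
          rw [mon_tt, mon_single, zpow_one, mon_zero, map_one]
          ring
        · rw [map_zero, mul_zero, zero_mul]
      · split_ifs with h
        · subst h
          unfold tt
          rw [mon_zero]
          show 1 * 1 = (d j s : F)⁻¹ * (d j s : F)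
          rw [inv_mul_cancel₀ (hdF s), mul_one]
        · rw [map_zero, mul_zero, zero_mul]
    · refine ⟨ex (Pi.single s 1) 0 0, ?_⟩
      unfold sys
      simp only [Fin.append_left]
      rw [AddMonoidAlgebra.coeff_sub]
      simp only [Finsupp.sub_apply, AddMonoidAlgebra.coeff_single, Finsupp.single_apply]
      have h0 : ¬ (0 : Fin (q + (n0 + w)) → ℤ) = ex (Pi.single s 1) 0 0 := by
        intro h
        rw [ex_zero] at h
        have h2 := congrFun (ex_inj h).1 s
        rw [Pi.single_eq_same] at h2
        exact zero_ne_one h2
      rw [if_pos trivial, if_neg h0, sub_zero]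
      exact h1m
  · refine Fin.addCases (fun i => ?_) (fun a => ?_) i
    · -- the equations over the complex numbers
      constructor
      · refine ⟨1, one_ne_zero, ?_⟩
        intro b
        rw [polyT_coeff]
        unfold fF sys
        simp only [Fin.append_left, Fin.append_right]
        rw [up_coeff, up_coeff, map_sum, one_mul, Finset.sum_mul]
        refine Finset.sum_congr rfl fun a _ => ?_
        split_ifs with h
        · subst h
          unfold tt
          rw [mon_tt, mon_zero, mon_zero, inv_one, mul_one, mul_one]
          rfl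
        · rw [map_zero, zero_mul]
      · have h0 : (f0 i).coeff ≠ 0 := fun h => hf i (AddMonoidAlgebra.coeff_eq_zero.1 h)
        obtain ⟨a, ha⟩ := Finsupp.support_nonempty_iff.2 h0
        refine ⟨ex 0 a 0, ?_⟩
        unfold sys
        simp only [Fin.append_left, Fin.append_right]
        rw [up_coeff, Finset.sum_eq_single a]
        · rw [if_pos rfl]
          intro h
          refine h1m ?_
          have hu : IsUnit (algebraMap ℂ (B.ring j) ((f0 i).coeff a)) :=
            (IsUnit.mk0 _ (Finsupp.mem_support_iff.1 ha)).map _
          obtain ⟨u, hu⟩ := hu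
          have := m.mul_mem_left (↑u⁻¹ : B.ring j) h
          rwa [← hu, Units.inv_mul] at this
        · intro a' _ hne
          rw [if_neg]
          intro h
          exact hne (ex_inj h).2.1
        · intro h
          exact absurd ha h
    · -- the equations of the roots
      have hEa : E j a ^ p a ≠ 0 := pow_ne_zero _ (hE j a)
      constructor
      · refine ⟨E j a ^ p a, hEa, ?_⟩
        intro b
        rw [polyT_coeff]
        unfold fF sys
        simp only [Fin.append_right]
        rw [AddMonoidAlgebra.coeff_sub, AddMonoidAlgebra.coeff_sub]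
        simp only [Finsupp.sub_apply, AddMonoidAlgebra.coeff_single, Finsupp.single_apply]
        rw [sub_mul, map_sub, mul_sub]
        congr 1
        · split_ifs with h
          · subst h
            unfold tt
            rw [mon_tt, mon_single, mon_zero, map_one, zpow_natCast, inv_one, one_mul, one_mul,
              mul_one]
          · rw [map_zero, mul_zero, zero_mul]
        · split_ifs with h
          · subst h
            unfold tt
            rw [mon_tt, mon_zero, mul_one]
            have h3 := hε a
            show g a * (mon (fun s => (d j s : F)) (κ a))⁻¹ = E j a ^ p a * (ε a : F)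
            rw [← h3]
            have := hmon (κ a)
            field_simp
          · rw [map_zero, mul_zero, zero_mul]
      · refine ⟨ex 0 0 (Pi.single a (p a : ℤ)), ?_⟩
        unfold sys
        simp only [Fin.append_right]
        rw [AddMonoidAlgebra.coeff_sub]
        simp only [Finsupp.sub_apply, AddMonoidAlgebra.coeff_single, Finsupp.single_apply]
        have h0 : ¬ (ex (κ a) (lam a) 0 : Fin (q + (n0 + w)) → ℤ) =
            ex 0 0 (Pi.single a (p a : ℤ)) := by
          intro h
          have h2 := congrFun (ex_inj h).2.2 a
          rw [Pi.single_eq_same] at h2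
          have h3 := hp a
          have h4 : (0 : ℤ) = (p a : ℤ) := h2
          omega
        rw [if_pos trivial, if_neg h0, sub_zero]
        exact h1m

end

end KUM
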