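import Pool.Agent.KUM.Stmts

set_option autoImplicit false

namespace KUM

open MldX MMCI MMCX RMX

noncomputable section

namespace INI

/-! ### binomials -/

section Bin

variable {R : Type} [CommRing R] {n : ℕ}

theorem coeff_bin (u v : Fin n → ℤ) (c c' : R) (a : Fin n → ℤ) :
    (AddMonoidAlgebra.single u c - AddMonoidAlgebra.single v c' : LaurentR R n).coeff a =
      (if u = a then c else 0) - if v = a then c' else 0 := by
  classical
  rw [AddMonoidAlgebra.coeff_sub, AddMonoidAlgebra.coeff_single, AddMonoidAlgebra.coeff_single,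
    Finsupp.sub_apply, Finsupp.single_apply, Finsupp.single_apply]

theorem supp_bin {u v : Fin n → ℤ} (huv : u ≠ v) {c c' : R} (hc : c ≠ 0) (hc' : c' ≠ 0) :
    ((AddMonoidAlgebra.single u c - AddMonoidAlgebra.single v c' : LaurentR R n).coeff.support :
      Set (Fin n → ℤ)) = {u, v} := by
  classical
  ext a
  rw [Finset.mem_coe, Finsupp.mem_support_iff, coeff_bin]
  simp only [Set.mem_insert_iff, Set.mem_singleton_iff]
  by_cases h1 : u = a
  · subst h1
    simp [huv.symm, hc]
  · by_cases h2 : v = a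
    · subst h2
      simp [huv, hc']
    · simp [h1, h2, Ne.symm h1, Ne.symm h2]

theorem min_bin {u v : Fin n → ℤ} (huv : u ≠ v) {c c' : R} (hc : c ≠ 0) (hc' : c' ≠ 0)
    (ν : Fin n → ℤ) :
    minOnR (AddMonoidAlgebra.single u c - AddMonoidAlgebra.single v c' : LaurentR R n) ν =
      min (pair ν u) (pair ν v) := by
  rw [minOnR, supp_bin huv hc hc', Set.image_pair, csInf_pair]

theorem init_coeff (h : LaurentR R n) (ν a : Fin n → ℤ) :
    (initFormR h ν).coeff a = if pair ν a = minOnR h ν then h.coeff a else 0 := by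
  classical
  rw [initFormR, AddMonoidAlgebra.coeff_ofCoeff, Finsupp.filter_apply]

theorem bin {u v : Fin n → ℤ} (huv : u ≠ v) {c c' : R} (hc : c ≠ 0) (hc' : c' ≠ 0)
    (ν : Fin n → ℤ) :
    (pair ν u < pair ν v →
      initFormR (AddMonoidAlgebra.single u c - AddMonoidAlgebra.single v c' : LaurentR R n) ν =
        AddMonoidAlgebra.single u c) ∧
    (pair ν v < pair ν u →
      initFormR (AddMonoidAlgebra.single u c - AddMonoidAlgebra.single v c' : LaurentR R n) ν =
        - AddMonoidAlgebra.single v c') ∧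
    (pair ν u = pair ν v →
      initFormR (AddMonoidAlgebra.single u c - AddMonoidAlgebra.single v c' : LaurentR R n) ν =
        AddMonoidAlgebra.single u c - AddMonoidAlgebra.single v c') := by
  classical
  refine ⟨fun h => ?_, fun h => ?_, fun h => ?_⟩
  · apply AddMonoidAlgebra.coeff_injective
    ext a
    rw [init_coeff, min_bin huv hc hc', min_eq_left h.le, coeff_bin, AddMonoidAlgebra.coeff_single,
      Finsupp.single_apply]
    by_cases h1 : u = a
    · subst h1
      simp [huv.symm]
    · by_cases h2 : v = a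
      · subst h2
        simp [h1, h.ne']
      · simp [h1, h2]
  · apply AddMonoidAlgebra.coeff_injective
    ext a
    rw [init_coeff, min_bin huv hc hc', min_eq_right h.le, coeff_bin, AddMonoidAlgebra.coeff_neg,
      AddMonoidAlgebra.coeff_single, Finsupp.neg_apply, Finsupp.single_apply]
    by_cases h1 : u = a
    · subst h1
      simp [huv.symm, h.ne']
    · by_cases h2 : v = a
      · subst h2
        simp [h1]
      · simp [h1, h2]
  · apply AddMonoidAlgebra.coeff_injective
    ext a
    rw [init_coeff, min_bin huv hc hc', ← h, min_self]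
    by_cases h1 : u = a
    · subst h1
      simp
    · by_cases h2 : v = a
      · subst h2
        simp [h]
      · rw [coeff_bin, if_neg h1, if_neg h2, sub_zero, ite_self]

end Bin

/-! ### pairing -/

section Pair

variable {q n0 w : ℕ}

theorem pair_ex (ν : Fin (q + (n0 + w)) → ℤ) (κ : Fin q → ℤ) (a : Fin n0 → ℤ) (μ : Fin w → ℤ) :
    pair ν (ex κ a μ) = pair (nq ν) κ + pair (nx ν) a + pair (nu ν) μ := by
  unfold pair ex nq nx nu
  rw [Fin.sum_univ_add, Fin.sum_univ_add]
  simp only [Fin.append_left, Fin.append_right]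
  ring

theorem pair_zero {n : ℕ} (ν : Fin n → ℤ) : pair ν 0 = 0 := by
  simp [pair]

theorem pair_single {n : ℕ} (ν : Fin n → ℤ) (s : Fin n) (z : ℤ) :
    pair ν (Pi.single s z) = ν s * z := by
  classical
  unfold pair
  rw [Finset.sum_eq_single s]
  · rw [Pi.single_eq_same]
  · intro t _ ht
    rw [Pi.single_eq_of_ne ht, mul_zero]
  · exact fun h => absurd (Finset.mem_univ _) h

theorem ex_q (κ : Fin q → ℤ) (a : Fin n0 → ℤ) (μ : Fin w → ℤ) (s : Fin q) :
    ex κ a μ (Fin.castAdd _ s) = κ s := by
  rw [ex, Fin.append_left]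

theorem ex_x (κ : Fin q → ℤ) (a : Fin n0 → ℤ) (μ : Fin w → ℤ) (k : Fin n0) :
    ex κ a μ (Fin.natAdd q (Fin.castAdd w k)) = a k := by
  rw [ex, Fin.append_right, Fin.append_left]

theorem ex_u (κ : Fin q → ℤ) (a : Fin n0 → ℤ) (μ : Fin w → ℤ) (b : Fin w) :
    ex κ a μ (Fin.natAdd q (Fin.natAdd n0 b)) = μ b := by
  rw [ex, Fin.append_right, Fin.append_right]

theorem ex_inj : Function.Injective fun a : Fin n0 → ℤ => (ex 0 a 0 : Fin (q + (n0 + w)) → ℤ) := by
  intro a b h
  funext k
  have := congrFun h (Fin.natAdd q (Fin.castAdd w k))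
  simpa only [ex_x] using this

end Pair

/-! ### the part over `ℂ` -/

section Up

variable {q n0 w : ℕ} {R : Type} [CommRing R] [Algebra ℂ R]

theorem up_coeff (f : Laurent n0) (m : Fin (q + (n0 + w)) → ℤ) :
    (up (q := q) (w := w) R f).coeff m =
      f.coeff.sum fun a c => (AddMonoidAlgebra.single (ex 0 a 0) (algebraMap ℂ R c) :
        LaurentR R (q + (n0 + w))).coeff m := by
  rw [up, AddMonoidAlgebra.coeff_finsuppSum, Finsupp.sum_apply]

theorem up_ex (f : Laurent n0) (a : Fin n0 → ℤ) :
    (up (q := q) (w := w) R f).coeff (ex 0 a 0) = algebraMap ℂ R (f.coeff a) := by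
  classical
  rw [up_coeff, Finsupp.sum]
  by_cases ha : a ∈ f.coeff.support
  · rw [Finset.sum_eq_single a]
    · rw [AddMonoidAlgebra.coeff_single, Finsupp.single_eq_same]
    · intro b _ hb
      rw [AddMonoidAlgebra.coeff_single, Finsupp.single_apply, if_neg]
      exact fun h => hb (ex_inj h)
    · exact fun h => absurd ha h
  · rw [Finsupp.notMem_support_iff.1 ha, map_zero]
    refine Finset.sum_eq_zero fun b hb => ?_
    rw [AddMonoidAlgebra.coeff_single, Finsupp.single_apply, if_neg]
    intro h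
    exact ha (ex_inj h ▸ hb)

theorem up_not (f : Laurent n0) (m : Fin (q + (n0 + w)) → ℤ) (h : ∀ a, m ≠ ex 0 a 0) :
    (up (q := q) (w := w) R f).coeff m = 0 := by
  classical
  rw [up_coeff, Finsupp.sum]
  refine Finset.sum_eq_zero fun b hb => ?_
  rw [AddMonoidAlgebra.coeff_single, Finsupp.single_apply, if_neg]
  exact fun h' => h b h'.symm

theorem pair_up (ν : Fin (q + (n0 + w)) → ℤ) (a : Fin n0 → ℤ) :
    pair ν (ex 0 a 0) = pair (nx ν) a := by
  rw [pair_ex, pair_zero, pair_zero, zero_add, add_zero]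

theorem min_up [Nontrivial R] (f : Laurent n0) (ν : Fin (q + (n0 + w)) → ℤ) :
    minOnR (up (q := q) (w := w) R f) ν = minOn f (nx ν) := by
  have h : (fun m => pair ν m) '' ((up (q := q) (w := w) R f).coeff.support :
      Set (Fin (q + (n0 + w)) → ℤ)) = (fun m => pair (nx ν) m) '' f.coeff.support := by
    ext z
    constructor
    · rintro ⟨m, hm, rfl⟩
      rw [Finset.mem_coe, Finsupp.mem_support_iff] at hm
      have h1 : ∃ a, m = ex 0 a 0 := by
        by_contra h
        exact hm (up_not f m (not_exists.1 h))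
      obtain ⟨a, rfl⟩ := h1
      refine ⟨a, ?_, (pair_up ν a).symm⟩
      rw [Finset.mem_coe, Finsupp.mem_support_iff]
      intro h
      rw [up_ex, h, map_zero] at hm
      exact hm rfl
    · rintro ⟨a, ha, rfl⟩
      refine ⟨ex 0 a 0, ?_, pair_up ν a⟩
      rw [Finset.mem_coe, Finsupp.mem_support_iff] at ha ⊢
      rw [up_ex]
      exact fun h => ha ((FaithfulSMul.algebraMap_injective ℂ R) (by rw [h, map_zero]))
  exact congrArg sInf h

theorem init_up [Nontrivial R] (f : Laurent n0) (ν : Fin (q + (n0 + w)) → ℤ) :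
    initFormR (up (q := q) (w := w) R f) ν = up R (initForm f (nx ν)) := by
  classical
  apply AddMonoidAlgebra.coeff_injective
  ext m
  rw [init_coeff, min_up]
  by_cases h : ∃ a, m = ex 0 a 0
  · obtain ⟨a, rfl⟩ := h
    rw [up_ex, up_ex, pair_up, initForm, AddMonoidAlgebra.coeff_ofCoeff, Finsupp.filter_apply]
    by_cases h : pair (nx ν) a = minOn f (nx ν)
    · rw [if_pos h, if_pos h]
    · rw [if_neg h, if_neg h, map_zero]
  · rw [up_not f m (not_exists.1 h), up_not _ m (not_exists.1 h), ite_self]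

end Up

end INI

theorem t_INI : S_INI := by
  intro q n0 w r0 R _ _ _ f0 d ε p κ lam hf0 hd hε hp ν
  refine ⟨fun s => ?_, fun i => ?_, fun a => ?_⟩
  · have huv : (ex (Pi.single s 1) 0 0 : Fin (q + (n0 + w)) → ℤ) ≠ 0 := by
      intro h
      have := congrFun h (Fin.castAdd _ s)
      rw [INI.ex_q, Pi.single_eq_same] at this
      exact one_ne_zero this
    have hp1 : pair ν (ex (Pi.single s 1) 0 0) = nq ν s := by
      rw [INI.pair_ex, INI.pair_zero, INI.pair_zero, INI.pair_single]
      ring
    have hs : sys f0 d ε p κ lam (Fin.castAdd _ s) =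
        AddMonoidAlgebra.single (ex (Pi.single s 1) 0 0) 1 - AddMonoidAlgebra.single 0 (d s) := by
      rw [sys, Fin.append_left]
    have h := INI.bin (R := R) huv one_ne_zero (hd s) ν
    rw [hp1, INI.pair_zero] at h
    rw [hs]
    exact h
  · have hs : sys f0 d ε p κ lam (Fin.natAdd q (Fin.castAdd w i)) = up R (f0 i) := by
      rw [sys, Fin.append_right, Fin.append_left]
    rw [hs]
    exact INI.init_up (f0 i) ν
  · have huv : (ex 0 0 (Pi.single a (p a : ℤ)) : Fin (q + (n0 + w)) → ℤ) ≠
        ex (κ a) (lam a) 0 := by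
      intro h
      have := congrFun h (Fin.natAdd q (Fin.natAdd n0 a))
      rw [INI.ex_u, INI.ex_u, Pi.single_eq_same] at this
      have h2 := hp a
      simp only [Pi.zero_apply] at this
      omega
    have hp1 : pair ν (ex 0 0 (Pi.single a (p a : ℤ))) = p a * nu ν a := by
      rw [INI.pair_ex, INI.pair_zero, INI.pair_zero, INI.pair_single]
      ring
    have hp2 : pair ν (ex (κ a) (lam a) 0) = pair (nq ν) (κ a) + pair (nx ν) (lam a) := by
      rw [INI.pair_ex, INI.pair_zero, add_zero]
    have hs : sys f0 d ε p κ lam (Fin.natAdd q (Fin.natAdd r0 a)) =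
        AddMonoidAlgebra.single (ex 0 0 (Pi.single a (p a : ℤ))) 1 -
          AddMonoidAlgebra.single (ex (κ a) (lam a) 0) (ε a) := by
      rw [sys, Fin.append_right, Fin.append_right]
    have h := INI.bin (R := R) huv one_ne_zero (hε a) ν
    rw [hp1, hp2] at h
    rw [hs]
    exact h

end

end KUM
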