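import Pool.Agent.KUM.Stmts

set_option autoImplicit false

namespace KUM

open MldX MMCI MMCX RMX

namespace EVA

noncomputable section

variable {R : Type} [CommRing R] [Algebra ℂ R] {n : ℕ}

theorem mon_add (c : Fin n → ℂ) (hc : ∀ k, c k ≠ 0) (a b : Fin n → ℤ) :
    mon c (a + b) = mon c a * mon c b := by
  unfold mon
  rw [← Finset.prod_mul_distrib]
  exact Finset.prod_congr rfl fun i _ => by rw [Pi.add_apply, zpow_add₀ (hc i)]

theorem evp_single (χ : R →ₐ[ℂ] ℂ) (c : Fin n → ℂ) (a : Fin n → ℤ) (z : R) :
    evp χ c (AddMonoidAlgebra.single a z) = χ z * mon c a := by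
  unfold evp
  rw [AddMonoidAlgebra.coeff_single, Finsupp.sum_single_index]
  rw [map_zero, zero_mul]

theorem evp_zero (χ : R →ₐ[ℂ] ℂ) (c : Fin n → ℂ) : evp χ c (0 : LaurentR R n) = 0 := by
  unfold evp
  rw [AddMonoidAlgebra.coeff_zero, Finsupp.sum_zero_index]

theorem evp_add (χ : R →ₐ[ℂ] ℂ) (c : Fin n → ℂ) (h h' : LaurentR R n) :
    evp χ c (h + h') = evp χ c h + evp χ c h' := by
  unfold evp
  rw [AddMonoidAlgebra.coeff_add, Finsupp.sum_add_index']
  · intro a; rw [map_zero, zero_mul]
  · intro a b b'; rw [map_add, add_mul]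

theorem ret_single (c : Fin n → ℂ) (a : Fin n → ℤ) (z : R) :
    ret c (AddMonoidAlgebra.single a z) = mon c a • z := by
  unfold ret
  rw [AddMonoidAlgebra.coeff_single, Finsupp.sum_single_index]
  rw [smul_zero]

theorem ret_zero (c : Fin n → ℂ) : ret c (0 : LaurentR R n) = 0 := by
  unfold ret
  rw [AddMonoidAlgebra.coeff_zero, Finsupp.sum_zero_index]

theorem ret_add (c : Fin n → ℂ) (h h' : LaurentR R n) :
    ret c (h + h') = ret c h + ret c h' := by
  unfold ret
  rw [AddMonoidAlgebra.coeff_add, Finsupp.sum_add_index']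
  · intro a; rw [smul_zero]
  · intro a b b'; rw [smul_add]

omit [Algebra ℂ R] in
theorem der_single (k : Fin n) (a : Fin n → ℤ) (z : R) :
    derR k (AddMonoidAlgebra.single a z : LaurentR R n) =
      AddMonoidAlgebra.single a ((a k : R) * z) := by
  unfold derR
  rw [AddMonoidAlgebra.coeff_single, Finsupp.sum_single_index]
  rw [mul_zero, AddMonoidAlgebra.single_zero]

omit [Algebra ℂ R] in
theorem der_zero (k : Fin n) : derR k (0 : LaurentR R n) = 0 := by
  unfold derR
  rw [AddMonoidAlgebra.coeff_zero, Finsupp.sum_zero_index]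

omit [Algebra ℂ R] in
theorem der_add (k : Fin n) (h h' : LaurentR R n) :
    derR k (h + h') = derR k h + derR k h' := by
  unfold derR
  rw [AddMonoidAlgebra.coeff_add, Finsupp.sum_add_index']
  · intro a; rw [mul_zero, AddMonoidAlgebra.single_zero]
  · intro a b b'; rw [mul_add, AddMonoidAlgebra.single_add]

theorem evp_mul (χ : R →ₐ[ℂ] ℂ) (c : Fin n → ℂ) (hc : ∀ k, c k ≠ 0) (h h' : LaurentR R n) :
    evp χ c (h * h') = evp χ c h * evp χ c h' := by
  induction h using AddMonoidAlgebra.induction_linear with
  | zero => rw [zero_mul, evp_zero, zero_mul]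
  | add x y hx hy => rw [add_mul, evp_add, hx, hy, evp_add, add_mul]
  | single a z =>
    induction h' using AddMonoidAlgebra.induction_linear with
    | zero => rw [mul_zero, evp_zero, mul_zero]
    | add x y hx hy => rw [mul_add, evp_add, hx, hy, evp_add, mul_add]
    | single b y =>
      rw [AddMonoidAlgebra.single_mul_single, evp_single, evp_single, evp_single, map_mul,
        mon_add c hc]
      ring

theorem ret_mul (c : Fin n → ℂ) (hc : ∀ k, c k ≠ 0) (h h' : LaurentR R n) :
    ret c (h * h') = ret c h * ret c h' := by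
  induction h using AddMonoidAlgebra.induction_linear with
  | zero => rw [zero_mul, ret_zero, zero_mul]
  | add x y hx hy => rw [add_mul, ret_add, hx, hy, ret_add, add_mul]
  | single a z =>
    induction h' using AddMonoidAlgebra.induction_linear with
    | zero => rw [mul_zero, ret_zero, mul_zero]
    | add x y hx hy => rw [mul_add, ret_add, hx, hy, ret_add, mul_add]
    | single b y =>
      rw [AddMonoidAlgebra.single_mul_single, ret_single, ret_single, ret_single,
        mon_add c hc, smul_mul_smul_comm]

theorem ret_ev (χ : R →ₐ[ℂ] ℂ) (c : Fin n → ℂ) (h : LaurentR R n) :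
    χ (ret c h) = evp χ c h := by
  induction h using AddMonoidAlgebra.induction_linear with
  | zero => rw [ret_zero, evp_zero, map_zero]
  | add x y hx hy => rw [ret_add, evp_add, map_add, hx, hy]
  | single a z => rw [ret_single, evp_single, map_smul, smul_eq_mul, mul_comm]

theorem evp_smul (χ : R →ₐ[ℂ] ℂ) (c : Fin n → ℂ) (t : ℂ) (h : LaurentR R n) :
    evp χ c (t • h) = t * evp χ c h := by
  induction h using AddMonoidAlgebra.induction_linear with
  | zero => rw [smul_zero, evp_zero, mul_zero]
  | add x y hx hy => rw [smul_add, evp_add, hx, hy, evp_add, mul_add]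
  | single a z =>
    rw [AddMonoidAlgebra.smul_single, evp_single, evp_single, map_smul, smul_eq_mul, mul_assoc]

theorem ret_smul (c : Fin n → ℂ) (t : ℂ) (h : LaurentR R n) :
    ret c (t • h) = t • ret c h := by
  induction h using AddMonoidAlgebra.induction_linear with
  | zero => rw [smul_zero, ret_zero, smul_zero]
  | add x y hx hy => rw [smul_add, ret_add, hx, hy, ret_add, smul_add]
  | single a z =>
    rw [AddMonoidAlgebra.smul_single, ret_single, ret_single, smul_comm]

theorem der_smul (k : Fin n) (t : ℂ) (h : LaurentR R n) :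
    derR k (t • h) = t • derR k h := by
  induction h using AddMonoidAlgebra.induction_linear with
  | zero => rw [smul_zero, der_zero, smul_zero]
  | add x y hx hy => rw [smul_add, der_add, hx, hy, der_add, smul_add]
  | single a z =>
    rw [AddMonoidAlgebra.smul_single, der_single, der_single, AddMonoidAlgebra.smul_single,
      mul_smul_comm]

omit [Algebra ℂ R] in
theorem der_mul (k : Fin n) (h h' : LaurentR R n) :
    derR k (h * h') = derR k h * h' + h * derR k h' := by
  induction h using AddMonoidAlgebra.induction_linear with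
  | zero => rw [zero_mul, der_zero, zero_mul, zero_mul, add_zero]
  | add x y hx hy => rw [add_mul, der_add, hx, hy, der_add, add_mul, add_mul]; abel
  | single a z =>
    induction h' using AddMonoidAlgebra.induction_linear with
    | zero => rw [mul_zero, der_zero, mul_zero, mul_zero, add_zero]
    | add x y hx hy => rw [mul_add, der_add, hx, hy, der_add, mul_add, mul_add]; abel
    | single b y =>
      rw [AddMonoidAlgebra.single_mul_single, der_single, der_single, der_single,
        AddMonoidAlgebra.single_mul_single, AddMonoidAlgebra.single_mul_single,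
        ← AddMonoidAlgebra.single_add]
      congr 1
      rw [Pi.add_apply]
      push_cast
      ring

end

end EVA

open EVA in
theorem t_EVA : S_EVA := by
  intro R _ _ n χ c hc
  refine ⟨evp_single χ c, ret_single c, evp_add χ c, evp_mul χ c hc, ret_add c, ret_mul c hc,
    ret_ev χ c, fun t h => ⟨evp_smul χ c t h, ret_smul c t h⟩, der_single, der_add, der_smul,
    der_mul, ?_⟩
  intro m M hm hM h hh
  have hret : ∀ f ∈ M, ret c f ∈ m := by
    intro f hf
    rw [hm, ret_ev]
    exact (hM f).1 hf
  rw [pow_two] at hh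
  refine Submodule.mul_induction_on hh ?_ ?_
  · intro f hf g hg
    refine ⟨fun k => ?_, ?_⟩
    · rw [der_mul, evp_add, evp_mul χ c hc, evp_mul χ c hc, (hM f).1 hf, (hM g).1 hg, mul_zero,
        zero_mul, add_zero]
    · rw [ret_mul c hc, pow_two]
      exact Ideal.mul_mem_mul (hret f hf) (hret g hg)
  · rintro x y ⟨hx, hx'⟩ ⟨hy, hy'⟩
    refine ⟨fun k => ?_, ?_⟩
    · rw [der_add, evp_add, hx, hy, add_zero]
    · rw [ret_add]
      exact Ideal.add_mem _ hx' hy'

end KUM
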