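import Pool.Agent.KUM.Stmts

set_option autoImplicit false

namespace KUM

open MldX MMCI MMCX RMX

theorem t_CNG : S_CNG := by
  intro F _ _ b n r n' r' B t f l a t' f' l' a' h
  refine ⟨?_, ?_⟩
  · intro hn ω hω γ k h0 g u hk hE
    refine hn ω hω γ k h0 g u hk ?_
    refine ⟨hE.h_ne, hE.u_ne, hE.restr, fun w => ?_⟩
    obtain ⟨j, m, hm, hv⟩ := hE.eqn w
    refine ⟨j, m, hm, fun v P hP hle => ?_⟩
    rw [← h ω j v P hP]
    exact hv v P hP hle
  · intro hs ω hω
    obtain ⟨k, N, h0, hk, h1, h2, h3⟩ := hs ω hω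
    refine ⟨k, N, h0, hk, h1, ?_, ?_⟩
    · intro q j v P hP
      rw [h ω j v P hP]
      exact h2 q j v P hP
    · intro j m hm
      obtain ⟨q, hq⟩ := h3 j m hm
      refine ⟨q, fun v P hP hle => ?_⟩
      rw [h ω j v P hP]
      exact hq v P hP hle

end KUM
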