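import Pool.Agent.KUM.Stmts

/-!
# Closed points of the torus over an algebra of finite type
-/

set_option autoImplicit false

namespace KUM

open MldX MMCI MMCX RMX

namespace EVP

variable {R : Type} [CommRing R] [Algebra ℂ R] {n : ℕ}

/-- the value of a homomorphism at a monomial -/
theorem map_single_one (φ : LaurentR R n →ₐ[ℂ] ℂ) (a : Fin n → ℤ) :
    φ (AddMonoidAlgebra.single a 1) =
      mon (fun k => φ (AddMonoidAlgebra.single (Pi.single k 1) 1)) a := by
  classical
  let ψ : Multiplicative (Fin n → ℤ) →* ℂ :=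
    (φ : LaurentR R n →* ℂ).comp (AddMonoidAlgebra.of R (Fin n → ℤ))
  have hψ : ∀ b : Fin n → ℤ, ((ψ.toHomUnits (Multiplicative.ofAdd b) : ℂˣ) : ℂ) =
      φ (AddMonoidAlgebra.single b 1) := fun b => rfl
  have ha : Multiplicative.ofAdd a =
      ∏ k, (Multiplicative.ofAdd (Pi.single k (1 : ℤ) : Fin n → ℤ)) ^ a k := by
    have h1 : a = ∑ k, a k • (Pi.single k (1 : ℤ) : Fin n → ℤ) := by
      conv_lhs => rw [← Finset.univ_sum_single a]
      refine Finset.sum_congr rfl fun k _ => ?_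
      rw [← Pi.single_smul, smul_eq_mul, mul_one]
    conv_lhs => rw [h1]
    rw [ofAdd_sum]
    rfl
  rw [← hψ, ha, map_prod]
  unfold mon
  rw [Units.coe_prod]
  refine Finset.prod_congr rfl fun k _ => ?_
  rw [map_zpow, Units.val_zpow_eq_zpow_val, hψ]

theorem map_eq (φ : LaurentR R n →ₐ[ℂ] ℂ) (h : LaurentR R n) :
    φ h = evp (φ.comp (IsScalarTower.toAlgHom ℂ R (LaurentR R n)))
      (fun k => φ (AddMonoidAlgebra.single (Pi.single k 1) 1)) h := by
  classical
  have h1 : ∀ (a : Fin n → ℤ) (z : R), φ (AddMonoidAlgebra.single a z) =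
      φ (algebraMap R (LaurentR R n) z) *
        mon (fun k => φ (AddMonoidAlgebra.single (Pi.single k 1) 1)) a := by
    intro a z
    rw [← map_single_one, ← map_mul]
    congr 1
    rw [AddMonoidAlgebra.coe_algebraMap]
    simp
  unfold evp
  conv_lhs => rw [← AddMonoidAlgebra.sum_coeff_single h]
  rw [Finsupp.sum, map_sum]
  refine Finset.sum_congr rfl fun a _ => ?_
  exact h1 a _

end EVP

theorem t_EVP : S_EVP := by
  intro R _ _ n hfin m M hM hm
  classical
  have hfin2 : Algebra.FiniteType ℂ (LaurentR R n) :=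
    Algebra.FiniteType.trans hfin (AddMonoidAlgebra.finiteType_of_fg R (Fin n → ℤ))
  letI : Field (LaurentR R n ⧸ M) := Ideal.Quotient.field M
  haveI : Algebra.FiniteType ℂ (LaurentR R n ⧸ M) :=
    Algebra.FiniteType.of_surjective (Ideal.Quotient.mkₐ ℂ M) (Ideal.Quotient.mkₐ_surjective ℂ M)
  haveI : Module.Finite ℂ (LaurentR R n ⧸ M) :=
    finite_of_finite_type_of_isJacobsonRing ℂ (LaurentR R n ⧸ M)
  have hbij : Function.Bijective (algebraMap ℂ (LaurentR R n ⧸ M)) :=
    IsAlgClosed.algebraMap_bijective_of_isIntegral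
  let e : ℂ ≃ₐ[ℂ] (LaurentR R n ⧸ M) := AlgEquiv.ofBijective (Algebra.ofId ℂ _) hbij
  let φ : LaurentR R n →ₐ[ℂ] ℂ := (e.symm : (LaurentR R n ⧸ M) →ₐ[ℂ] ℂ).comp (Ideal.Quotient.mkₐ ℂ M)
  have hker : ∀ h, h ∈ M ↔ φ h = 0 := by
    intro h
    show h ∈ M ↔ e.symm (Ideal.Quotient.mk M h) = 0
    rw [EmbeddingLike.map_eq_zero_iff, Ideal.Quotient.eq_zero_iff_mem]
  refine ⟨φ.comp (IsScalarTower.toAlgHom ℂ R (LaurentR R n)),
    fun k => φ (AddMonoidAlgebra.single (Pi.single k 1) 1), ?_, ?_, ?_⟩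
  · intro k h0
    replace h0 : φ (AddMonoidAlgebra.single (Pi.single k 1) 1) = 0 := h0
    have h1 : φ (AddMonoidAlgebra.single (Pi.single k 1) 1 *
        AddMonoidAlgebra.single (-Pi.single k 1) 1) = 1 := by
      rw [AddMonoidAlgebra.single_mul_single, add_neg_cancel, one_mul]
      exact map_one φ
    rw [map_mul, h0, zero_mul] at h1
    exact zero_ne_one h1
  · intro z
    rw [← hm, Ideal.mem_comap, hker]
    rfl
  · intro h
    rw [hker, EVP.map_eq]

end KUM
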