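import Pool.Agent.KUM.Stmts
import Pool.Agent.MMCI.CD
import Pool.Agent.MMCI.BridgeX

/-!
# Abelian covers (MP_fa3f7f_ag): principal divisors are nef and semiample (module PRN)
-/

set_option autoImplicit false

namespace KUM

open MldX MMCI MMCX RMX

noncomputable section

namespace PRN

variable {F : Type} [Field F] [Algebra ℂ F] {b : ℕ} (B : ProjModel F)

/-- A function of order zero along the prime divisors through a point is a unit at the point. -/
theorem unit_at (hd : Algebra.trdeg ℂ F = (b : Cardinal))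
    (hn : ∀ j (z : F), IsIntegral (B.ring j) z → z ∈ B.ring j) (j : Fin (B.N + 1))
    (m : Ideal (B.ring j)) (hm : m.IsMaximal) (z : F) (hz : z ≠ 0)
    (hord : ∀ (v : MldGeo.DivVal b F) (P : Ideal (B.ring j)),
      MMCI.IsPrimeDivisor (B.ring j) v P → P ≤ m → v.ord z = 0) :
    ∃ p q : B.ring j, q ∉ m ∧ p ∉ m ∧ z * q = p := by
  obtain ⟨p, q, hq, hpq⟩ := LCM_holds B hd hn j m hm z
    fun v P hP hle => Or.inr (hord v P hP hle).ge
  obtain ⟨p', q', hq', hpq'⟩ := LCM_holds B hd hn j m hm z⁻¹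
    fun v P hP hle => Or.inr (by rw [MldGeo.DivVal.ord_inv, hord v P hP hle, neg_zero])
  refine ⟨p, q, hq, ?_, hpq⟩
  intro hp
  have h1 : q * q' = p * p' := by
    apply Subtype.ext
    change (q : F) * (q' : F) = (p : F) * (p' : F)
    rw [← hpq, ← hpq']
    field_simp
  have h2 : q * q' ∈ m := by
    rw [h1]
    exact m.mul_mem_right _ hp
  rcases hm.isPrime.mem_or_mem h2 with h3 | h3
  · exact hq h3
  · exact hq' h3

end PRN

theorem t_PRN : S_PRN := by
  intro F _ _ b n r B t f l a h0 hd hn hh0 hD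
  classical
  refine ⟨?_, ?_⟩
  · intro ω hω γ k h g u hk H
    obtain ⟨hR1, -, hR3, hR4, hR5, -, -⟩ := t_RSU γ
    obtain ⟨hP1, -, hP3⟩ := PRF_holds (t_CUR γ)
    choose j m hmt heq using H.eqn
    obtain ⟨w₁, -⟩ := hP3 ∅
    let w₀ : DivVal 1 γ.L := ofOld w₁
    have hh := H.h_ne
    have hg0 : ∀ w, g w ≠ 0 := by
      intro w hw
      refine (hR4 _ _ (H.restr w) (H.u_ne w)).1 ?_
      rw [hw, zero_div]
    have hord : ∀ (w : DivVal 1 γ.L) (v : MldGeo.DivVal b F) (P : Ideal (B.ring (j w))),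
        MMCI.IsPrimeDivisor (B.ring (j w)) v P → P ≤ m w → v.ord (g w / h0 ^ k) = 0 := by
      intro w v P hP hle
      have h1 := heq w (ofOld v) P (isPrimeDivisor_iff.1 hP) hle
      rw [hD ω (j w) (ofOld v) P (isPrimeDivisor_iff.1 hP)] at h1
      change v.ord (g w) = k * v.ord h0 at h1
      rw [MldGeo.DivVal.ord_div v (hg0 w) (pow_ne_zero _ hh0), MldGeo.DivVal.ord_pow, h1,
        sub_self]
    -- the restriction of `g w / h0 ^ k`
    have hρ : ∀ w : DivVal 1 γ.L, ∃ ζ : γ.L, γ.Restr (g w / h0 ^ k) ζ ∧ ζ ≠ 0 ∧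
        w.ord ζ = 0 := by
      intro w
      obtain ⟨p, q, hq, hp, hpq⟩ := PRN.unit_at B hd hn (j w) (m w) (hmt w).1 (g w / h0 ^ k)
        (div_ne_zero (hg0 w) (pow_ne_zero _ hh0)) (hord w)
      obtain ⟨ζ, h1, -, h2, -⟩ := RGW_holds γ w.old (j w) (m w) (hmt w) _ p q hq hpq
      exact ⟨ζ, h1, (h2 hp).1, (h2 hp).2⟩
    choose ρ hρ1 hρ0 hρ2 using hρ
    have hψ : ∀ w, γ.Restr (h0 ^ k / h) (u w * (ρ w)⁻¹) := by
      intro w
      have h1 := (hR4 _ _ (hρ1 w) (hρ0 w)).2 (-1)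
      have h2 := hR3 _ _ _ _ (H.restr w) h1
      rw [zpow_neg_one, zpow_neg_one] at h2
      have h3 : g w / h * (g w / h0 ^ k)⁻¹ = h0 ^ k / h := by
        have h4 := hg0 w
        field_simp
      rwa [h3] at h2
    have hψ0 : u w₀ * (ρ w₀)⁻¹ ≠ 0 := mul_ne_zero (H.u_ne _) (inv_ne_zero (hρ0 _))
    have hu : ∀ w : DivVal 1 γ.L, w.ord (u w) = w.ord (u w₀ * (ρ w₀)⁻¹) := by
      intro w
      have h1 := hR1 _ _ _ (hψ w) (hψ w₀)
      rw [← h1]
      have h2 : u w = u w * (ρ w)⁻¹ * ρ w := by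
        rw [mul_assoc, inv_mul_cancel₀ (hρ0 w), mul_one]
      have h3 := w.ord_mul (u w * (ρ w)⁻¹) (ρ w)
        (mul_ne_zero (H.u_ne w) (inv_ne_zero (hρ0 w))) (hρ0 w)
      rw [← h2, hρ2 w, add_zero] at h3
      exact h3
    obtain ⟨D, hD1, hD0⟩ := hP1 _ hψ0
    refine ⟨?_, ?_⟩
    · refine finite_of ?_
      refine D.support.finite_toSet.subset fun w hw => ?_
      rw [Finset.mem_coe, Finsupp.mem_support_iff, hD1]
      have h1 := hu (ofOld w)
      change w.ord (u (ofOld w)) = w.ord (u w₀ * (ρ w₀)⁻¹) at h1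
      rw [← h1]
      exact hw
    · rw [finsum_eq]
      have h1 : ∀ w : MldGeo.DivVal 1 γ.L, w.ord (u (ofOld w)) = D w := by
        intro w
        rw [hD1 w]
        exact hu (ofOld w)
      rw [finsum_congr h1, finsum_eq_sum_of_support_subset (s := D.support) _ ?_]
      · exact hD0.ge
      · intro w hw
        rw [Finset.mem_coe, Finsupp.mem_support_iff]
        exact hw
  · intro ω hω
    have hinv : ∀ (j : Fin (B.N + 1)) (v : DivVal b F) (P : Ideal (B.ring j)),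
        IsPrimeDivisor (B.ring j) v P →
        v.ord h0⁻¹ + (1 : ℕ) * divOrdT ω (t j) f 0 l a v = 0 := by
      intro j v P hP
      rw [hD ω j v P hP]
      have h1 : v.ord h0⁻¹ = - v.ord h0 := MldGeo.DivVal.ord_inv v.old h0
      rw [h1]
      push_cast
      ring
    refine ⟨1, 1, fun _ => h0⁻¹, Nat.one_pos, fun _ => inv_ne_zero hh0, ?_, ?_⟩
    · intro q j v P hP
      exact (hinv j v P hP).ge
    · intro j m hm
      exact ⟨0, fun v P hP _ => hinv j v P hP⟩

end

end KUM
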