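import Pool.Agent.KUM.Defs
import Pool.Agent.RMT.StU

/-!
# Abelian covers (MP_fa3f7f_ag): statements of the modules
-/

set_option autoImplicit false

namespace KUM

open MldX MMCI MMCX RMX

noncomputable section

/-! ### points of the torus over `R` -/

/-- The value of `h` at the point with the coordinates `c` over the point `χ` of `R`. -/
def evp {R : Type} [CommRing R] [Algebra ℂ R] {n : ℕ} (χ : R →ₐ[ℂ] ℂ) (c : Fin n → ℂ)
    (h : LaurentR R n) : ℂ := h.coeff.sum fun a z => χ z * mon c a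

/-- The restriction of `h` to the section with the coordinates `c`. -/
def ret {R : Type} [CommRing R] [Algebra ℂ R] {n : ℕ} (c : Fin n → ℂ) (h : LaurentR R n) : R :=
  h.coeff.sum fun a z => mon c a • z

/-- EVP: closed points. Proof. `S = LaurentR R n` is an `ℂ`-algebra of finite type (generated by the
generators of `R` and the `single (±e_k) 1`), so `S / M` is a finite field extension of `ℂ` (Zariski's
lemma, `finite_of_finite_type_of_isJacobsonRing` or `Ideal.Quotient`, or the Nullstellensatz), hence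
`ℂ → S / M` is bijective. `φ : S →ₐ[ℂ] ℂ` the quotient map, `χ = φ ∘ algebraMap R S`
(`algebraMap R S z = single 0 z`), `c k = φ (single e_k 1)`, nonzero because `single e_k 1` is a
unit; `φ h = evp χ c h` (both sides are additive; for `h = single a z = single 0 z * ∏ (single e_k 1)^(a k)`).
The same for `m`. -/
def S_EVP : Prop := ∀ {R : Type} [CommRing R] [Algebra ℂ R] {n : ℕ}, Algebra.FiniteType ℂ R →
  ∀ (m : Ideal R) (M : Ideal (LaurentR R n)), M.IsMaximal →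
    M.comap (algebraMap R (LaurentR R n)) = m →
    ∃ (χ : R →ₐ[ℂ] ℂ) (c : Fin n → ℂ), (∀ k, c k ≠ 0) ∧ (∀ z, z ∈ m ↔ χ z = 0) ∧
      ∀ h, h ∈ M ↔ evp χ c h = 0

/-- EVA: `evp χ c` and `ret c` are homomorphisms, and `derR k` is a derivation. Proof. They are
additive; check multiplicativity on `single a z`, `single a' z'` (`mon c (a + a') = mon c a * mon c a'`
since `c k ≠ 0`). `χ (ret c h) = evp χ c h`. Last: `M ^ 2` is generated additively by the products
`h * h'` (`Submodule.mul_induction_on`), `h, h' ∈ M`. -/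
def S_EVA : Prop := ∀ {R : Type} [CommRing R] [Algebra ℂ R] {n : ℕ} (χ : R →ₐ[ℂ] ℂ)
  (c : Fin n → ℂ), (∀ k, c k ≠ 0) →
  (∀ (a : Fin n → ℤ) (z : R), evp χ c (AddMonoidAlgebra.single a z) = χ z * mon c a) ∧
  (∀ (a : Fin n → ℤ) (z : R), ret c (AddMonoidAlgebra.single a z) = mon c a • z) ∧
  (∀ h h' : LaurentR R n, evp χ c (h + h') = evp χ c h + evp χ c h') ∧
  (∀ h h' : LaurentR R n, evp χ c (h * h') = evp χ c h * evp χ c h') ∧
  (∀ h h' : LaurentR R n, ret c (h + h') = ret c h + ret c h') ∧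
  (∀ h h' : LaurentR R n, ret c (h * h') = ret c h * ret c h') ∧
  (∀ h : LaurentR R n, χ (ret c h) = evp χ c h) ∧
  (∀ (t : ℂ) (h : LaurentR R n), evp χ c (t • h) = t * evp χ c h ∧ ret c (t • h) = t • ret c h) ∧
  (∀ (k : Fin n) (a : Fin n → ℤ) (z : R), derR k (AddMonoidAlgebra.single a z : LaurentR R n) =
    AddMonoidAlgebra.single a ((a k : R) * z)) ∧
  (∀ (k : Fin n) (h h' : LaurentR R n), derR k (h + h') = derR k h + derR k h') ∧
  (∀ (k : Fin n) (t : ℂ) (h : LaurentR R n), derR k (t • h) = t • derR k h) ∧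
  (∀ (k : Fin n) (h h' : LaurentR R n), derR k (h * h') = derR k h * h' + h * derR k h') ∧
  ∀ (m : Ideal R) (M : Ideal (LaurentR R n)), (∀ z, z ∈ m ↔ χ z = 0) →
    (∀ h, h ∈ M ↔ evp χ c h = 0) → ∀ h ∈ M ^ 2, (∀ k, evp χ c (derR k h) = 0) ∧ ret c h ∈ m ^ 2

/-! ### the system -/

section

variable {q n0 w r0 : ℕ}

/-- INI: the initial forms of the system. Proof. The supports are `{ex e_s 0 0, 0}`, the
`ex 0 a 0`, `a ∈ supp f0_i`, and `{ex 0 0 (p_a e_a), ex κ_a λ_a 0}`; `pair ν (ex κ a μ) =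
pair (nq ν) κ + pair (nx ν) a + pair (nu ν) μ` (`Fin.sum_univ_add`). -/
def S_INI : Prop := ∀ {q n0 w r0 : ℕ} {R : Type} [CommRing R] [IsDomain R] [Algebra ℂ R]
  (f0 : Fin r0 → Laurent n0) (d : Fin q → R) (ε : Fin w → R) (p : Fin w → ℕ)
  (κ : Fin w → Fin q → ℤ) (lam : Fin w → Fin n0 → ℤ), (∀ i, f0 i ≠ 0) → (∀ s, d s ≠ 0) →
  (∀ a, ε a ≠ 0) → (∀ a, 0 < p a) → ∀ ν : Fin (q + (n0 + w)) → ℤ,
  (∀ s : Fin q,
    (nq ν s < 0 → initFormR (sys f0 d ε p κ lam (Fin.castAdd _ s)) ν =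
      AddMonoidAlgebra.single (ex (Pi.single s 1) 0 0) 1) ∧
    (0 < nq ν s → initFormR (sys f0 d ε p κ lam (Fin.castAdd _ s)) ν =
      - AddMonoidAlgebra.single 0 (d s)) ∧
    (nq ν s = 0 → initFormR (sys f0 d ε p κ lam (Fin.castAdd _ s)) ν =
      AddMonoidAlgebra.single (ex (Pi.single s 1) 0 0) 1 - AddMonoidAlgebra.single 0 (d s))) ∧
  (∀ i : Fin r0, initFormR (sys f0 d ε p κ lam (Fin.natAdd q (Fin.castAdd w i))) ν =
    up R (initForm (f0 i) (nx ν))) ∧
  (∀ a : Fin w,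
    (p a * nu ν a < pair (nq ν) (κ a) + pair (nx ν) (lam a) →
      initFormR (sys f0 d ε p κ lam (Fin.natAdd q (Fin.natAdd r0 a))) ν =
        AddMonoidAlgebra.single (ex 0 0 (Pi.single a (p a : ℤ))) 1) ∧
    (pair (nq ν) (κ a) + pair (nx ν) (lam a) < p a * nu ν a →
      initFormR (sys f0 d ε p κ lam (Fin.natAdd q (Fin.natAdd r0 a))) ν =
        - AddMonoidAlgebra.single (ex (κ a) (lam a) 0) (ε a)) ∧
    (p a * nu ν a = pair (nq ν) (κ a) + pair (nx ν) (lam a) →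
      initFormR (sys f0 d ε p κ lam (Fin.natAdd q (Fin.natAdd r0 a))) ν =
        AddMonoidAlgebra.single (ex 0 0 (Pi.single a (p a : ℤ))) 1 -
          AddMonoidAlgebra.single (ex (κ a) (lam a) 0) (ε a)))

/-- UPE: values of `up R f`. Proof. Additivity; `f = single a z`: `mon c (ex 0 a 0) =
mon (fun k => c (natAdd q (castAdd w k))) a`, and `(ex 0 a 0) (natAdd q (castAdd w k)) = a k`. -/
def S_UPE : Prop := ∀ {q n0 w : ℕ} {R : Type} [CommRing R] [Algebra ℂ R] (χ : R →ₐ[ℂ] ℂ)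
  (c : Fin (q + (n0 + w)) → ℂ) (f : Laurent n0),
  evp χ c (up (q := q) (w := w) R f) = ev (fun k => c (Fin.natAdd q (Fin.castAdd w k))) f ∧
  (∀ k : Fin n0, evp χ c (derR (Fin.natAdd q (Fin.castAdd w k)) (up (q := q) (w := w) R f)) =
    grad (fun k => c (Fin.natAdd q (Fin.castAdd w k))) f k) ∧
  (∀ s : Fin q, derR (Fin.castAdd _ s) (up (q := q) (w := w) R f) = 0) ∧
  (∀ a : Fin w, derR (Fin.natAdd q (Fin.natAdd n0 a)) (up (q := q) (w := w) R f) = 0) ∧
  ∃ z : ℂ, ret c (up (q := q) (w := w) R f) = algebraMap ℂ R z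

/-- NDG: the system is nondegenerate. Proof. Let `M` be a maximal ideal over `m` which contains all the
initial forms `G_i`; `χ`, `c` from `EVP` (`LaurentR` is an abbreviation), `M` is the kernel of
`evp χ c`. A monomial `single a 1` or `single a (unit)` is not in `M`. So by `INI`: `nq ν s ≥ 0` for all
`s`; if `nq ν s > 0` then `d s ∈ m`; if `nq ν s = 0` then `χ (d s) = mon c (ex e_s 0 0) ≠ 0`, so
`d s ∉ m`; for all `a` the two sides are equal and `G_a` is the binomial; `p := fun k => c (natAdd q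
(castAdd w k))` is a common zero of the `initForm (f0 i) (nx ν)` (`UPE`), so their gradients at `p` are
independent. Let `t : Fin (q + (r0 + w)) → ℂ` and let `T` be the additive functional
`h ↦ evp (derR k h)`, `k` one of the indices; suppose that `T (∑ t_i G_i) = 0` for all `k`. For
`k = natAdd q (natAdd n0 a)`: only `G_a` contributes, `t_a p_a c^(..) = 0`, so `t_a = 0`. For
`k = castAdd s`, `nq ν s = 0`: now only `G_s` contributes: `t_s c_s = 0`. For `k = natAdd q (castAdd w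
k')`: `∑_i t_i grad = 0`, so `t_i = 0`. So `t` is zero outside the `s` with `nq ν s > 0` (*).
(1) If no `d s` is in `m`: the second alternative of `RegularOver`: `∑ t_i derR k G_i ∈ M` for all `k`
gives `T = 0`, so `t = 0` by (*). (2) If some `d s ∈ m`: the first alternative; `y` from the
hypothesis; if `∑ t_i G_i ∈ M ^ 2` then by `EVA` `T = 0` and `ret c (∑ t_i G_i) ∈ m ^ 2`; by (*)
`∑ t_i G_i = - ∑_(d s ∈ m) t_s single 0 (d s)`, `ret` of it is `- ∑ t_s d_s`, so `t = 0` by the last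
hypothesis for `t_s` (zero if `d s ∉ m`). -/
def S_NDG : Prop := ∀ {q n0 w r0 b : ℕ} {R : Type} [CommRing R] [IsDomain R] [Algebra ℂ R]
  (f0 : Fin r0 → Laurent n0) (d : Fin q → R) (ε : Fin w → R) (p : Fin w → ℕ)
  (κ : Fin w → Fin q → ℤ) (lam : Fin w → Fin n0 → ℤ), Algebra.FiniteType ℂ R →
  (∀ i, f0 i ≠ 0) → (∀ s, d s ≠ 0) → (∀ a, IsUnit (ε a)) → (∀ a, 0 < p a) →
  (∀ ν : Fin n0 → ℤ, Nondegenerate f0 ν) → ∀ m : Ideal R, m.IsMaximal →
  ((∃ s, d s ∈ m) → ∃ y : Fin b → R, m = Ideal.span (Set.range y) ⊔ m ^ 2) →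
  (∀ t : Fin q → ℂ, (∀ s, d s ∉ m → t s = 0) → ∑ s, t s • d s ∈ m ^ 2 → t = 0) →
  ∀ ν : Fin (q + (n0 + w)) → ℤ, RegularOver b (fun i => initFormR (sys f0 d ε p κ lam i) ν) m

def M_NDG : Prop := S_EVP → S_EVA → S_INI → S_UPE → S_NDG

end

/-! ### the family -/

section

variable {F K : Type} [Field F] [Field K] [Algebra ℂ F] [Algebra ℂ K] [Algebra F K]
  [IsScalarTower ℂ F K] {b e q n0 w r0 : ℕ}

/-- The system over `F`. -/
def fF (f0 : Fin r0 → Laurent n0) (p : Fin w → ℕ) (κ : Fin w → Fin q → ℤ)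
    (lam : Fin w → Fin n0 → ℤ) (g : Fin w → F) :
    Fin (q + (r0 + w)) → LaurentR F (q + (n0 + w)) :=
  sys f0 (fun _ => (1 : F)) g p κ lam

/-- LEQ: local equations. Proof. `u = (d j s)⁻¹` for the first `q`, `u = 1` for the `f0 i`, `u = (E j a)^(p a)`
for the last `w` (see `IsLocEq` in `RMM/DefsX.lean`); `mon (tt n0 B d E j) (ex κ a μ) =
mon (d j) (-κ) * mon (E j) μ`. The coefficients which are not in `m`: `1` at `ex e_s 0 0`, a nonzero
constant, `1` at `ex 0 0 (p_a e_a)`. -/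
def S_LEQ : Prop := ∀ {F : Type} [Field F] [Algebra ℂ F] {q n0 w r0 : ℕ} (B : ProjModel F)
  (d : (j : Fin (B.N + 1)) → Fin q → B.ring j) (E : Fin (B.N + 1) → Fin w → F)
  (f0 : Fin r0 → Laurent n0) (p : Fin w → ℕ) (κ : Fin w → Fin q → ℤ) (lam : Fin w → Fin n0 → ℤ)
  (g : Fin w → F), (∀ j s, d j s ≠ 0) → (∀ j a, E j a ≠ 0) → (∀ i, f0 i ≠ 0) → (∀ a, 0 < p a) →
  ∀ (j : Fin (B.N + 1)) (ε : Fin w → B.ring j),
  (∀ a, (ε a : F) * mon (fun s => (d j s : F)) (κ a) * E j a ^ p a = g a) →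
  ∀ m : Ideal (B.ring j), m.IsMaximal →
    IsLocEq (fun i => polyT (tt n0 B d E j) (fF f0 p κ lam g i)) m (sys f0 (d j) ε p κ lam)

/-- FAM: the family. Proof. The fields of `IsFamilyT` one by one; `loc` from `LEQ`, `nondeg` and the
first alternative of `inner` from `LEQ` and `NDG` (`B.ring j` is a domain of finite type:
`Algebra.adjoin` of a finite set). `gen`: the range of `pt x u` contains `x k` and `u a`. `zero`:
`evR (pt x u) (single a z) = z * mon (pt x u) a`, `mon (pt x u) (ex κ a μ) = mon x a * mon u μ`. -/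
def S_FAM : Prop := ∀ {F K : Type} [Field F] [Field K] [Algebra ℂ F] [Algebra ℂ K] [Algebra F K]
  [IsScalarTower ℂ F K] {b e q n0 w r0 : ℕ} (B : ProjModel F)
  (d : (j : Fin (B.N + 1)) → Fin q → B.ring j) (E : Fin (B.N + 1) → Fin w → F)
  (f0 : Fin r0 → Laurent n0) (x : Fin n0 → K) (p : Fin w → ℕ) (κ : Fin w → Fin q → ℤ)
  (lam : Fin w → Fin n0 → ℤ) (g : Fin w → F) (u : Fin w → K),
  IsKummer b e B d E f0 x p κ lam g u →
  IsFamilyT b e B (tt n0 B d E) (fF f0 p κ lam g) (pt x u)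

def M_FAM : Prop := S_NDG → S_LEQ → S_FAM

/-! ### nef divisors -/

/-- PRN: principal divisors are nef and semiample. Proof. Semiample: `k = 1`, one section `h0⁻¹`
(`v.ord h0⁻¹ = - v.ord h0`). Nef: let `H : EquationsT γ ω t f 0 l a k h g u`. At `w` let `(j, m)` be the
chart and the point. `ρ := g w / h0^k ≠ 0` (`u w ≠ 0`) has order `0` at all prime divisors through
`m`, so, as `B.ring j` is normal, `ρ` and `ρ⁻¹` are in the local ring at `m` (`LOP`, see `RMM/LOP.lean`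
and its use in `RMT/TADD.lean`), so by `RGW_holds` (`MMCI/RGW.lean`, `MMCI/CD.lean`) `ρ` has a restriction
`ρ'` with `w.ord ρ' = 0`, `ρ' ≠ 0`. So `u w / ρ'` is the restriction of `h0^k / h`, it does not depend on
`w` (`t_RSU`: uniqueness): `u w = ρ'_w ψ`. So `w.ord (u w) = w.ord ψ`; finiteness and
`∑ w.ord ψ = 0` by `PRF_holds` (`MMCI/CD.lean`, use in `MMCI/CMP.lean`). These lemmas are for
`MldGeo.DivVal`; see `RMM/BridgeR.lean` (`nef_to`, `adjNef_to`) and `RMM/FinalR.lean` (`nef_of`) for the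
translation (`MldX.DivVal` and `MldGeo.DivVal` have the same fields; `HasCentre`, `MapsTo` are the same
conditions; no forms are needed here because `c = 0`). -/
def S_PRN : Prop := ∀ {F : Type} [Field F] [Algebra ℂ F] {b n r : ℕ} (B : ProjModel F)
  (t : Fin (B.N + 1) → Fin n → F) (f : Fin r → LaurentR F n) (l : Fin r → ℕ) (a : Fin n → ℤ)
  (h0 : F), Algebra.trdeg ℂ F = (b : Cardinal) →
  (∀ j (z : F), IsIntegral (B.ring j) z → z ∈ B.ring j) → h0 ≠ 0 →
  (∀ (ω : Forms b F) (j : Fin (B.N + 1)) (v : DivVal b F) (P : Ideal (B.ring j)),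
    IsPrimeDivisor (B.ring j) v P → divOrdT ω (t j) f 0 l a v = v.ord h0) →
  NefT b B t f 0 l a ∧ SemiampleT b B t f 0 l a

/-- CNG: divisors with the same coefficients. Proof. Unfold; the equations are the same. -/
def S_CNG : Prop := ∀ {F : Type} [Field F] [Algebra ℂ F] {b n r n' r' : ℕ} (B : ProjModel F)
  (t : Fin (B.N + 1) → Fin n → F) (f : Fin r → LaurentR F n) (l : Fin r → ℕ) (a : Fin n → ℤ)
  (t' : Fin (B.N + 1) → Fin n' → F) (f' : Fin r' → LaurentR F n') (l' : Fin r' → ℕ)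
  (a' : Fin n' → ℤ),
  (∀ (ω : Forms b F) (j : Fin (B.N + 1)) (v : DivVal b F) (P : Ideal (B.ring j)),
    IsPrimeDivisor (B.ring j) v P → divOrdT ω (t j) f 0 l a v = divOrdT ω (t' j) f' 0 l' a' v) →
  (NefT b B t' f' 0 l' a' → NefT b B t f 0 l a) ∧
  (SemiampleT b B t' f' 0 l' a' → SemiampleT b B t f 0 l a)

/-- CFN: the divisors `L_i + ⟨a, D⟩`. Proof. Let `(v, P)` be a prime divisor of the chart `j`. The nonzero
coefficients of `polyT (tt n0 B d E j) (f_i)` are: (s) `(d j s)⁻¹` at `ex e_s 0 0` and `-1` at `0`; least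
order `- v.ord (d j s)` (`0 ≤ v.ord (d j s)`); the divisor for `a = 0` is `v.ord (d j s)` (`CNG` with
`CrossNef`), for `a = ex e_s 0 0` it is `0` (`PRN`, `h0 = 1`); (i) constants, `mon (tt j) (ex 0 a 0) = 1`:
`0`; (a) `(E j a)^p` and `- ε (E j a)^p`, `ε` a unit of `B.ring j`, of order `0` (`v.ord` is `≥ 0` on
`B.ring j`): for `ex 0 0 (p e_a)` `0`, for `ex κ_a λ_a 0` it is
`- p v.ord (E j a) - v.ord (mon (d j) κ_a) = v.ord (g_a⁻¹)`. -/
def S_CFN : Prop := ∀ {F : Type} [Field F] [Algebra ℂ F] {b q n0 w r0 : ℕ} (B : ProjModel F)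
  (d : (j : Fin (B.N + 1)) → Fin q → B.ring j) (E : Fin (B.N + 1) → Fin w → F)
  (f0 : Fin r0 → Laurent n0) (p : Fin w → ℕ) (κ : Fin w → Fin q → ℤ) (lam : Fin w → Fin n0 → ℤ)
  (g : Fin w → F),
  Algebra.trdeg ℂ F = (b : Cardinal) → (∀ j (z : F), IsIntegral (B.ring j) z → z ∈ B.ring j) →
  (∀ j s, d j s ≠ 0) → (∀ j a, E j a ≠ 0) → (∀ a, 0 < p a) → (∀ a, g a ≠ 0) →
  (∀ (j : Fin (B.N + 1)) (a : Fin w), ∃ ε : B.ring j, IsUnit ε ∧
    (ε : F) * mon (fun s => (d j s : F)) (κ a) * E j a ^ p a = g a) →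
  ((∀ s, CrossNef b B d s) → CoefNef b B (tt n0 B d E) (fF f0 p κ lam g)) ∧
  ((∀ s, CrossSemiample b B d s) → CoefSemiample b B (tt n0 B d E) (fF f0 p κ lam g))

def M_CFN : Prop := S_PRN → S_CNG → S_CFN

/-- KUM: the theorem. Proof. `FAM`, `CFN` and `finalU` (`RMT/AsmC.lean`). -/
def S_KUM : Prop := ∀ {F K : Type} [Field F] [Field K] [Algebra ℂ F] [Algebra ℂ K] [Algebra F K]
  [IsScalarTower ℂ F K] {b e q n0 w r0 : ℕ} (B : ProjModel F)
  (d : (j : Fin (B.N + 1)) → Fin q → B.ring j) (E : Fin (B.N + 1) → Fin w → F)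
  (f0 : Fin r0 → Laurent n0) (x : Fin n0 → K) (p : Fin w → ℕ) (κ : Fin w → Fin q → ℤ)
  (lam : Fin w → Fin n0 → ℤ) (g : Fin w → F) (u : Fin w → K),
  IsKummer b e B d E f0 x p κ lam g u → Nef b B → (∀ s, CrossNef b B d s) →
  ∃ Y : ProjModel K, Terminal (b + e) Y ∧
    ((Nef (b + e) Y ∧ (Semiample b B → (∀ s, CrossSemiample b B d s) → Semiample (b + e) Y)) ∨
      MoriFibre (b + e) Y)

def M_KUM : Prop := S_FINU → S_FAM → S_CFN → S_KUM

/-- PTM: the point. Proof. `N = 0`, `s 0 = 1`; `B.ring 0 = ⊥`, the constants. There is no `DivVal 0 ℂ`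
(`unif` and `ord_const`). A form: `Terminal` with `k = 1`, `g = 1`; `IsForm` is never used.
`CurveMap B` is empty (`nonconst`). `IsCrossing` for `q = 0`. -/
def S_PTM : Prop := ∃ B : ProjModel ℂ, Terminal 0 B ∧ Nef 0 B ∧ Semiample 0 B ∧
  ∀ d : (j : Fin (B.N + 1)) → Fin 0 → B.ring j, IsCrossing 0 B d

end

end

end KUM
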