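import Pool.Agent.KUM.CoverDefs
import Pool.Agent.KUM.Stmts
import Pool.Agent.NCC.Stmts

/-!
# Abelian covers of `B × Z_0` (MP_fa3f7f_ag): statements
-/

set_option autoImplicit false

namespace KUM

open MvPolynomial NCC MldX MMCI MMCX RMX

noncomputable section

/-- GENR: generators, relative version of `NCC.S_GEN` (`NCC/GEN.lean`; `ℂ` is replaced by `F`). `x' = Λ x` has
no zero coordinate. Then `K` is generated over `F` by the `x'_(l, i) / x'_(l, 0)` and the
`w'_a = w_a / ∏_l x'_(l, 0)^(n_(a, l))`, `m_a n_(a, l) = ∑_j κ_(a, j) d_(j, l)`, and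
`w'_a ^ m_a = γ_a ∏_j z_j^(κ_(a, j))`. (One of the `x_(l, i)` is `1`, a linear combination of the `x'_(l, i)`, so
`x'_(l, 0)` is a rational function of the quotients.) -/
def S_GENR : Prop :=
  ∀ {F K : Type} [Field F] [Field K] [Algebra ℂ F] [Algebra ℂ K] [Algebra F K]
    [IsScalarTower ℂ F K] {b k q q' r v n : ℕ} {N : Fin k → ℕ} (B : ProjModel F)
    (D : (j : Fin (B.N + 1)) → Fin q' → B.ring j) (E : Fin (B.N + 1) → Fin v → F)
    (g : Fin r → Poly N) (h : Fin q → Poly N) (d : Fin q → Fin k → ℕ) (x : Coord N → K)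
    (w : Fin v → K) (m : Fin v → ℕ) (κ : Fin v → Fin q → ℤ) (γ : Fin v → F)
    (δ : Fin v → Fin q' → ℤ), IsCover b n B D E g h d x w m κ γ δ →
    ∀ A Λ : Matrix (Coord N) (Coord N) ℂ, IsBlock A → IsBlock Λ → A * Λ = 1 →
    (∀ s, act Λ x s ≠ 0) →
    ∃ w' : Fin v → K,
      (∀ a, w' a ^ m a = algebraMap F K (γ a) *
        monI (Sum.elim (fun s : (l : Fin k) × Fin (N l) => act Λ x ⟨s.1, s.2.succ⟩ / act Λ x ⟨s.1, 0⟩)
          fun j => aeval x (h j) / ∏ l, act Λ x ⟨l, 0⟩ ^ d j l) (Sum.elim 0 (κ a))) ∧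
      IntermediateField.adjoin F (Set.range (fun s : (l : Fin k) × Fin (N l) =>
        act Λ x ⟨s.1, s.2.succ⟩ / act Λ x ⟨s.1, 0⟩) ∪ Set.range w') = ⊤

/-- COV: the theorem for abelian covers of `B × Z_0`. Proof. Coordinates `A`, `Λ` from `CRD`; `f0` is the
system `NCC.sys g' h'` with the indices in `Fin`, nondegenerate by `NDG`; the roots `w'` of `GENR`; then `KUM`. -/
def S_COV : Prop :=
  ∀ {F K : Type} [Field F] [Field K] [Algebra ℂ F] [Algebra ℂ K] [Algebra F K]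
    [IsScalarTower ℂ F K] {b k q q' r v n : ℕ} {N : Fin k → ℕ} (B : ProjModel F)
    (D : (j : Fin (B.N + 1)) → Fin q' → B.ring j) (E : Fin (B.N + 1) → Fin v → F)
    (g : Fin r → Poly N) (h : Fin q → Poly N) (e : Fin r → Fin k → ℕ) (d : Fin q → Fin k → ℕ)
    (x : Coord N → K) (w : Fin v → K) (m : Fin v → ℕ) (κ : Fin v → Fin q → ℤ) (γ : Fin v → F)
    (δ : Fin v → Fin q' → ℤ), (∀ i, IsMultiHom (g i) (e i)) → (∀ j, IsMultiHom (h j) (d j)) →
    NormalCrossings g h → (∀ i, g i ≠ 0) → IsCover b n B D E g h d x w m κ γ δ →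
    Nef b B → (∀ s, CrossNef b B D s) →
    ∃ Y : ProjModel K, Terminal (b + n) Y ∧
      ((Nef (b + n) Y ∧ (Semiample b B → (∀ s, CrossSemiample b B D s) →
          Semiample (b + n) Y)) ∨ MoriFibre (b + n) Y)

end

end KUM
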