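import Pool.Agent.KUM.Stmts

/-!
# PTM: the point
-/

set_option autoImplicit false

namespace KUM

open MldX MMCI MMCX RMX

noncomputable section

namespace PTM

/-- the point -/
def pt0 : ProjModel ℂ where
  N := 0
  s := fun _ => 1
  ne := fun _ => one_ne_zero
  gen := by
    rw [eq_top_iff]
    intro x _
    exact IntermediateField.algebraMap_mem _ x

lemma no_val {n : ℕ} (v : DivVal n ℂ) : False := by
  obtain ⟨t, _, h⟩ := v.unif
  have h1 : v.ord t = 0 := v.ord_const t
  omega

lemma no_curve (γ : CurveMap pt0) : False := by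
  obtain ⟨a, ha⟩ := γ.nonconst
  refine ha ⟨(a : ℂ), ?_⟩
  have h : a = algebraMap ℂ (pt0.ring γ.i) (a : ℂ) := rfl
  conv_rhs => rw [h]
  exact (γ.φ.commutes _).symm

lemma term : Terminal 0 pt0 := by
  intro i
  refine ⟨fun a _ => Subalgebra.algebraMap_mem _ a, ?_⟩
  intro ω _ m _
  refine ⟨1, 1, one_pos, one_ne_zero, ?_, ?_⟩
  · intro v P _ _
    exact (no_val v).elim
  · intro v P _ _ _
    exact (no_val v).elim

lemma nef : Nef 0 pt0 := by
  intro ω _ γ
  exact (no_curve γ).elim

lemma semi : Semiample 0 pt0 := by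
  intro ω _
  refine ⟨1, 1, fun _ => 1, one_pos, fun _ => one_ne_zero, ?_, ?_⟩
  · intro l i v P _
    exact (no_val v).elim
  · intro i m _
    refine ⟨0, ?_⟩
    intro v P _ _
    exact (no_val v).elim

lemma cross (d : (j : Fin (pt0.N + 1)) → Fin 0 → pt0.ring j) : IsCrossing 0 pt0 d where
  bundle := fun _ _ k => k.elim0
  smooth := by
    rintro j m _ ⟨s, _⟩
    exact s.elim0
  indep := fun _ _ _ t _ _ => Subsingleton.elim t 0

end PTM

theorem t_PTM : S_PTM := ⟨PTM.pt0, PTM.term, PTM.nef, PTM.semi, PTM.cross⟩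

end

end KUM
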