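import Pool.Agent.KUM.CoverStmts

/-!
# KUM: abelian covers of `B × Z_0`, from the statements
-/

set_option autoImplicit false

namespace KUM

open MvPolynomial NCC MldX MMCI MMCX RMX

noncomputable section

theorem COVA.indep {ι : Type} [Fintype ι] {M : ℕ} (ψ : ι ≃ Fin M) :
    LinearIndependent ℤ (fun i => (Pi.single (ψ i) 1 : Fin M → ℤ)) := by
  classical
  rw [Fintype.linearIndependent_iff]
  intro c hc i
  have h1 := congrFun hc (ψ i)
  rw [Finset.sum_apply, Finset.sum_eq_single i] at h1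
  · simpa using h1
  · intro j _ hj
    have h2 : ψ i ≠ ψ j := fun h => hj (ψ.injective h).symm
    simp [h2]
  · intro h
    exact absurd (Finset.mem_univ _) h

theorem t_COV : S_SUB → S_CRD → S_PUL → NCC.S_NDG → S_AFF → S_GENR → S_KUM → S_COV := by
  intro hSUB hCRD hPUL hNDG hAFF hGENR hKUM F K _ _ _ _ _ _ b k q q' r v n N B D E g h e d x w m κ
    γ δ hg hh hnc hg0 hK hB hD
  classical
  have hh0 : ∀ j, h j ≠ 0 := by
    intro j hj
    apply hK.ne j
    rw [hj, map_zero]
  have hx : IsPoint x := by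
    intro l
    obtain ⟨i, hi⟩ := hK.one l
    exact ⟨i, by rw [hi]; exact one_ne_zero⟩
  obtain ⟨A, Λ, hA, hΛ, hAΛ, hΛA, hNCT, hVTX, hx'⟩ := hCRD g h e d hg hh hnc hg0 hh0 x hx
  set g' : Fin r → Poly N := fun i => sub A (g i) with hg'
  set h' : Fin q → Poly N := fun j => sub A (h j) with hh'
  have hgm : ∀ i, IsMultiHom (g' i) (e i) := fun i => (hSUB A (g i)).1 hA _ (hg i)
  have hhm : ∀ j, IsMultiHom (h' j) (d j) := fun j => (hSUB A (h j)).1 hA _ (hh j)
  set x' : Coord N → K := act Λ x with hx'd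
  have hact : act A x' = x := by
    funext s
    simp only [hx'd, act, Finset.mul_sum]
    rw [Finset.sum_comm]
    have h1 : ∀ t, ∑ v, algebraMap ℂ K (A s v) * (algebraMap ℂ K (Λ v t) * x t) =
        algebraMap ℂ K ((A * Λ) s t) * x t := by
      intro t
      rw [Matrix.mul_apply, map_sum, Finset.sum_mul]
      exact Finset.sum_congr rfl fun v _ => by rw [map_mul, mul_assoc]
    rw [Finset.sum_congr rfl fun t _ => h1 t, hAΛ]
    simp [Matrix.one_apply]
  have haev : ∀ f : Poly N, aeval x' (sub A f) = aeval x f := by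
    intro f
    rw [(hSUB A f).2.1, hact]
  obtain ⟨hs0, hnd⟩ := hNDG g' h' e d hgm hhm hNCT hVTX
  have hz0 : ∀ i, aeval x' (g' i) = 0 := fun i => by rw [hg', haev]; exact hK.zero i
  have hzh : ∀ j, aeval x' (h' j) = aeval x (h j) := fun j => by rw [hh', haev]
  have haff := hAFF g' h' e d hgm hhm x' hx' hz0
  obtain ⟨w', hw', hgen⟩ := hGENR B D E g h d x w m κ γ δ hK A Λ hA hΛ hAΛ hx'
  set X : Aff N q → K := Sum.elim (fun s : (l : Fin k) × Fin (N l) =>
      act Λ x ⟨s.1, s.2.succ⟩ / act Λ x ⟨s.1, 0⟩)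
    fun j => aeval x (h j) / ∏ l, act Λ x ⟨l, 0⟩ ^ d j l with hX
  have hX0 : ∀ i, X i ≠ 0 := by
    rintro (s | j)
    · simp only [hX, Sum.elim_inl]
      exact div_ne_zero (hx' _) (hx' _)
    · simp only [hX, Sum.elim_inr]
      exact div_ne_zero (hK.ne j) (Finset.prod_ne_zero_iff.2 fun l _ => pow_ne_zero _ (hx' _))
  have hXe : ∀ i, evI X (NCC.sys g' h' i) = 0 := by
    intro i
    have h1 := haff i
    have h2 : (Sum.elim (fun s : (l : Fin k) × Fin (N l) => x' ⟨s.1, s.2.succ⟩ / x' ⟨s.1, 0⟩)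
        fun j => aeval x' (h' j) / ∏ l, x' ⟨l, 0⟩ ^ d j l) = X := by
      rw [hX]
      congr 1
      funext j
      rw [hzh]
    rw [h2] at h1
    exact h1
  -- the indices in `Fin`
  set M := Fintype.card (Aff N q) with hM
  set ψ : Aff N q ≃ Fin M := Fintype.equivFin (Aff N q) with hψ
  set μ : Aff N q → Fin M → ℤ := fun i => Pi.single (ψ i) 1 with hμd
  have hμ : LinearIndependent ℤ μ := COVA.indep ψ
  obtain ⟨hev, hne, hPN⟩ := hPUL (fun _ : Aff N q => (1 : ℂ)) μ (fun _ => one_ne_zero) hμ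
  set X0 : Fin M → K := fun z => X (ψ.symm z) with hX0d
  have hX00 : ∀ z, X0 z ≠ 0 := fun z => hX0 _
  have hmon : ∀ i, mon X0 (μ i) = X i := by
    intro i
    unfold mon
    rw [Finset.prod_eq_single (ψ i)]
    · simp [hμd, hX0d]
    · intro j _ hj
      simp [hμd, Pi.single_eq_of_ne hj]
    · intro hj
      exact absurd (Finset.mem_univ _) hj
  have hevX : ∀ f : LaurI (Aff N q), ev X0 (pull (fun _ => (1 : ℂ)) μ f) = evI X f := by
    intro f
    rw [hev X0 hX00]
    congr 1
    funext i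
    rw [hmon, map_one, one_mul]
  refine hKUM B D E (fun i : Fin (r + q) => pull (fun _ => (1 : ℂ)) μ
    (NCC.sys g' h' (finSumFinEquiv.symm i))) X0 m δ (fun a z => Sum.elim 0 (κ a) (ψ.symm z)) γ w'
    ?_ hB hD
  refine
    { pos := hK.pos
      dim_base := hK.dim_base
      terminal := hK.terminal
      cross := hK.cross
      dim_eq := ?_
      f_ne := fun i => hne _ (hs0 _)
      nondeg := fun ν p hp hz => ?_
      x_ne := hX00
      zero := fun i => ?_
      p_pos := fun a => (hK.root a).1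
      g_ne := fun a => (hK.div 0 a).1
      bundle := hK.bundle
      unit := fun j a => (hK.div j a).2
      pow := fun a => ?_
      gen := ?_
      dim := hK.dim }
  · rw [hM]
    simp only [Fintype.card_sum, Fintype.card_sigma, Fintype.card_fin]
    have := hK.dim_eq
    omega
  · have h1 := hPN (NCC.sys g' h') hnd ν p hp fun i => by
      have := hz (finSumFinEquiv i)
      simpa using this
    exact (linearIndependent_equiv (finSumFinEquiv (m := r) (n := q)).symm).2 h1
  · rw [hevX]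
    exact hXe _
  · rw [hw' a]
    congr 1
    unfold monI mon
    exact (Equiv.prod_comp ψ.symm fun i => X i ^ (Sum.elim 0 (κ a) i : ℤ)).symm
  · refine top_le_iff.1 ?_
    rw [← hgen]
    refine IntermediateField.adjoin.mono F _ _ ?_
    refine Set.union_subset_union_left _ ?_
    rintro _ ⟨s, rfl⟩
    exact ⟨ψ (Sum.inl s), by simp [hX0d, hX]⟩

end

end KUM
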