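import Pool.Agent.KUM.Stmts

/-!
# Abelian covers (MP_fa3f7f_ag): the family (module FAM, helper1)
-/

set_option autoImplicit false

namespace KUM

open MldX MMCI MMCX RMX

noncomputable section

namespace FAM

section ex

variable {q n0 w : ℕ}

lemma ex_q (κ : Fin q → ℤ) (a : Fin n0 → ℤ) (μ : Fin w → ℤ) (s : Fin q) :
    ex κ a μ (Fin.castAdd _ s) = κ s := by
  unfold ex
  rw [Fin.append_left]

lemma ex_x (κ : Fin q → ℤ) (a : Fin n0 → ℤ) (μ : Fin w → ℤ) (k : Fin n0) :
    ex κ a μ (Fin.natAdd q (Fin.castAdd w k)) = a k := by
  unfold ex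
  rw [Fin.append_right, Fin.append_left]

lemma ex_u (κ : Fin q → ℤ) (a : Fin n0 → ℤ) (μ : Fin w → ℤ) (k : Fin w) :
    ex κ a μ (Fin.natAdd q (Fin.natAdd n0 k)) = μ k := by
  unfold ex
  rw [Fin.append_right, Fin.append_right]

lemma ex_inj {κ κ' : Fin q → ℤ} {a a' : Fin n0 → ℤ} {μ μ' : Fin w → ℤ}
    (h : ex κ a μ = ex κ' a' μ') : κ = κ' ∧ a = a' ∧ μ = μ' := by
  refine ⟨funext fun s => ?_, funext fun s => ?_, funext fun s => ?_⟩
  · rw [← ex_q κ a μ s, h, ex_q]
  · rw [← ex_x κ a μ s, h, ex_x]
  · rw [← ex_u κ a μ s, h, ex_u]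

lemma ex_zero : (ex 0 0 0 : Fin (q + (n0 + w)) → ℤ) = 0 := by
  funext i
  refine Fin.addCases (fun s => ?_) (fun i => ?_) i
  · rw [ex_q]; rfl
  · refine Fin.addCases (fun s => ?_) (fun s => ?_) i
    · rw [ex_x]; rfl
    · rw [ex_u]; rfl

lemma mon_ex {K : Type} [Field K] (x : Fin n0 → K) (u : Fin w → K) (κ : Fin q → ℤ)
    (a : Fin n0 → ℤ) (μ : Fin w → ℤ) : mon (pt x u) (ex κ a μ) = mon x a * mon u μ := by
  unfold mon pt
  rw [Fin.prod_univ_add, Fin.prod_univ_add]
  have h1 : ∏ i : Fin q, (Fin.append (fun _ : Fin q => (1 : K)) (Fin.append x u))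
      (Fin.castAdd (n0 + w) i) ^ ex κ a μ (Fin.castAdd (n0 + w) i) = 1 := by
    apply Finset.prod_eq_one
    intro i _
    rw [Fin.append_left, one_zpow]
  rw [h1, one_mul]
  congr 1
  · refine Finset.prod_congr rfl fun i _ => ?_
    rw [Fin.append_right, Fin.append_left, ex_x]
  · refine Finset.prod_congr rfl fun i _ => ?_
    rw [Fin.append_right, Fin.append_right, ex_u]

lemma mon_zero {K : Type} [Field K] {n : ℕ} (x : Fin n → K) : mon x 0 = 1 := by
  unfold mon
  simp

lemma mon_single {K : Type} [Field K] {n : ℕ} (x : Fin n → K) (a : Fin n) (k : ℕ) :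
    mon x (Pi.single a (k : ℤ)) = x a ^ k := by
  unfold mon
  rw [Finset.prod_eq_single a]
  · rw [Pi.single_eq_same, zpow_natCast]
  · intro b _ hb
    rw [Pi.single_eq_of_ne hb, zpow_zero]
  · intro h
    exact absurd (Finset.mem_univ a) h

end ex

section evr

variable {F K : Type} [Field F] [Field K] [Algebra F K] {n : ℕ}

lemma evR_single (x : Fin n → K) (a : Fin n → ℤ) (c : F) :
    evR x (AddMonoidAlgebra.single a c : LaurentR F n) = algebraMap F K c * mon x a := by
  unfold evR
  rw [AddMonoidAlgebra.coeff_single, Finsupp.sum_single_index]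
  rw [map_zero, zero_mul]

lemma evR_add (x : Fin n → K) (f g : LaurentR F n) : evR x (f + g) = evR x f + evR x g := by
  unfold evR
  rw [AddMonoidAlgebra.coeff_add, Finsupp.sum_add_index']
  · intro a
    rw [map_zero, zero_mul]
  · intro a b c
    rw [map_add, add_mul]

/-- additive form -/
def evH (x : Fin n → K) : LaurentR F n →+ K where
  toFun := evR x
  map_zero' := by
    unfold evR
    rw [AddMonoidAlgebra.coeff_zero, Finsupp.sum_zero_index]
  map_add' := evR_add x

lemma evR_sub (x : Fin n → K) (f g : LaurentR F n) : evR x (f - g) = evR x f - evR x g :=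
  map_sub (evH x) f g

lemma evR_sum (x : Fin n → K) {ι : Type} (f : ι →₀ ℂ) (g : ι → ℂ → LaurentR F n) :
    evR x (f.sum g) = f.sum fun i c => evR x (g i c) :=
  map_finsuppSum (evH x) f g

end evr

end FAM

open FAM in
theorem t_FAM (hNDG : S_NDG) (hLEQ : S_LEQ) : S_FAM := by
  intro F K _ _ _ _ _ _ b e q n0 w r0 B d E f0 x p κ lam g u H
  have hd : ∀ j s, d j s ≠ 0 := by
    intro j s h
    apply (H.cross.bundle j j s).1
    show ((d j s : B.ring j) : F) = 0
    rw [h]
    rfl
  have hE : ∀ j a, E j a ≠ 0 := fun j a => (H.bundle j j a).1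
  have hu : ∀ a, u a ≠ 0 := by
    intro a h
    have h1 := H.pow a
    rw [h, zero_pow (H.p_pos a).ne'] at h1
    have h2 : mon x (lam a) ≠ 0 := by
      unfold mon
      exact Finset.prod_ne_zero_iff.2 fun i _ => zpow_ne_zero _ (H.x_ne i)
    have h3 : algebraMap F K (g a) ≠ 0 := by
      rw [Ne, map_eq_zero]
      exact H.g_ne a
    exact mul_ne_zero h3 h2 h1.symm
  have key : ∀ (ν : Fin (q + (n0 + w)) → ℤ) (j : Fin (B.N + 1)) (m : Ideal (B.ring j)),
      m.IsMaximal → ∃ G, IsLocEq (fun i => polyT (tt n0 B d E j) (fF f0 p κ lam g i)) m G ∧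
        RegularOver b (fun i => initFormR (G i) ν) m := by
    intro ν j m hm
    choose ε hε using fun a => H.unit j a
    refine ⟨sys f0 (d j) ε p κ lam, hLEQ B d E f0 p κ lam g hd hE H.f_ne H.p_pos j ε
      (fun a => (hε a).2) m hm, ?_⟩
    have hft : Algebra.FiniteType ℂ (B.ring j) := by
      rw [← Subalgebra.fg_iff_finiteType]
      refine ⟨(Set.finite_range fun k => B.s k / B.s j).toFinset, ?_⟩
      rw [Set.Finite.coe_toFinset]
      rfl
    exact hNDG f0 (d j) ε p κ lam hft H.f_ne (hd j) (fun a => (hε a).1) H.p_pos H.nondeg m hm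
      (fun h => H.cross.smooth j m hm h) (fun t ht h => H.cross.indep j m hm t ht h) ν
  exact {
    bundle := by
      intro j j' k
      unfold tt
      refine Fin.addCases (fun s => ?_) (fun k => ?_) k
      · rw [Fin.append_left, Fin.append_left]
        obtain ⟨h1, h2, h3⟩ := H.cross.bundle j j' s
        refine ⟨inv_ne_zero h1, ?_, ?_⟩
        · rw [inv_div_inv]; exact h3
        · rw [inv_div_inv]; exact h2
      · rw [Fin.append_right, Fin.append_right]
        refine Fin.addCases (fun s => ?_) (fun s => ?_) k
        · rw [Fin.append_left, Fin.append_left, div_one]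
          exact ⟨one_ne_zero, Subalgebra.one_mem _, Subalgebra.one_mem _⟩
        · rw [Fin.append_right, Fin.append_right]
          exact H.bundle j j' s
    dim_eq := by have := H.dim_eq; omega
    pos := H.pos
    f_ne := by
      intro i
      unfold fF sys
      refine Fin.addCases (fun s => ?_) (fun k => ?_) i
      · rw [Fin.append_left]
        intro h
        have h1 := congrArg (fun f => f.coeff 0) (sub_eq_zero.1 h)
        simp only [AddMonoidAlgebra.coeff_single] at h1
        rw [Finsupp.single_eq_same, Finsupp.single_eq_of_ne] at h1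
        · exact zero_ne_one h1
        · intro h2
          rw [← ex_zero] at h2
          have h3 := congrFun (ex_inj h2).1 s
          simp at h3
      · rw [Fin.append_right]
        refine Fin.addCases (fun s => ?_) (fun s => ?_) k
        · rw [Fin.append_left]
          intro h
          apply H.f_ne s
          apply AddMonoidAlgebra.ext
          ext a : 1
          have h1 := congrArg (fun f => f.coeff (ex 0 a 0)) h
          unfold up at h1
          rw [AddMonoidAlgebra.coeff_finsuppSum, Finsupp.sum_apply, Finsupp.sum] at h1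
          have h2 : ∑ a' ∈ (f0 s).coeff.support, (AddMonoidAlgebra.single (ex 0 a' 0)
              (algebraMap ℂ F ((f0 s).coeff a')) : LaurentR F (q + (n0 + w))).coeff (ex 0 a 0) =
              algebraMap ℂ F ((f0 s).coeff a) := by
            rw [Finset.sum_eq_single a]
            · rw [AddMonoidAlgebra.coeff_single, Finsupp.single_eq_same]
            · intro b _ hb
              rw [AddMonoidAlgebra.coeff_single, Finsupp.single_eq_of_ne]
              intro h3
              exact hb (ex_inj h3).2.1.symm
            · intro h3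
              rw [Finsupp.notMem_support_iff.1 h3, map_zero, AddMonoidAlgebra.coeff_single,
                Finsupp.single_zero]
              rfl
          have h4 : algebraMap ℂ F ((f0 s).coeff a) = 0 := h2.symm.trans h1
          rw [map_eq_zero] at h4
          rw [h4]
          rfl
        · rw [Fin.append_right]
          intro h
          have h1 := congrArg (fun f => f.coeff (ex 0 0 (Pi.single s (p s : ℤ)))) (sub_eq_zero.1 h)
          simp only [AddMonoidAlgebra.coeff_single] at h1
          rw [Finsupp.single_eq_same, Finsupp.single_eq_of_ne] at h1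
          · exact one_ne_zero h1
          · intro h2
            have h3 := congrFun (ex_inj h2).2.2 s
            have h4 := H.p_pos s
            simp at h3
            omega
    ne := by
      intro i
      unfold pt
      refine Fin.addCases (fun s => ?_) (fun k => ?_) i
      · rw [Fin.append_left]; exact one_ne_zero
      · rw [Fin.append_right]
        refine Fin.addCases (fun s => ?_) (fun s => ?_) k
        · rw [Fin.append_left]; exact H.x_ne s
        · rw [Fin.append_right]; exact hu s
    gen := by
      rw [eq_top_iff, ← H.gen]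
      apply IntermediateField.adjoin.mono
      rintro _ (⟨k, rfl⟩ | ⟨a, rfl⟩)
      · refine ⟨Fin.natAdd q (Fin.castAdd w k), ?_⟩
        unfold pt
        rw [Fin.append_right, Fin.append_left]
      · refine ⟨Fin.natAdd q (Fin.natAdd n0 a), ?_⟩
        unfold pt
        rw [Fin.append_right, Fin.append_right]
    dim_base := H.dim_base
    terminal := H.terminal
    dim := H.dim
    zero := by
      intro i
      unfold fF sys
      refine Fin.addCases (fun s => ?_) (fun k => ?_) i
      · rw [Fin.append_left, evR_sub, evR_single, evR_single, mon_ex, ← ex_zero, mon_ex]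
        simp [mon_zero]
      · rw [Fin.append_right]
        refine Fin.addCases (fun s => ?_) (fun s => ?_) k
        · rw [Fin.append_left]
          unfold up
          rw [evR_sum, ← H.zero s]
          unfold MMCI.ev
          refine Finset.sum_congr rfl fun a _ => ?_
          show evR (pt x u) (AddMonoidAlgebra.single (ex 0 a 0)
            ((algebraMap ℂ F) ((f0 s).coeff a))) = algebraMap ℂ K ((f0 s).coeff a) * mon x a
          rw [evR_single, mon_ex, mon_zero, mul_one, ← IsScalarTower.algebraMap_apply]
        · rw [Fin.append_right, evR_sub, evR_single, evR_single, mon_ex, mon_ex, mon_single,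
            mon_zero, mon_zero, map_one, one_mul, one_mul, mul_one, H.pow s, sub_self]
    loc := by
      intro j m hm
      obtain ⟨G, h1, -⟩ := key 0 j m hm
      exact ⟨G, h1⟩
    nondeg := fun ν _ j m hm => key ν j m hm
    inner := fun j => Or.inl fun m hm => key 0 j m hm }

end

end KUM
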