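import Pool.Agent.KUM.CoverStmts
import Pool.Agent.NCC.GEN

/-!
# KUM, module GENR: generators in the new coordinates, relative version
-/

set_option autoImplicit false

namespace KUM

open MvPolynomial NCC MldX MMCI MMCX RMX

noncomputable section

theorem t_GENR : S_GENR := by
  intro F K _ _ _ _ _ _ b k q q' r v n N B D E g h d x w m κ γ δ hc A Λ hA hΛ hAΛ hx'
  have hx := NCC.GENx.act_act (K := K) hAΛ x
  generalize act Λ x = x' at hx hx'
  have hdvd : ∀ a l, ∃ c : ℤ, ∑ j, κ a j * d j l = m a * c := fun a l => hc.unram a l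
  choose ν hν using hdvd
  have hP : ∀ a, (∏ l, x' ⟨l, 0⟩ ^ ν a l : K) ≠ 0 := fun a =>
    Finset.prod_ne_zero_iff.2 fun l _ => zpow_ne_zero _ (hx' _)
  refine ⟨fun a => w a / ∏ l, x' ⟨l, 0⟩ ^ ν a l, fun a => ?_, ?_⟩
  · have h1 : (∏ l, x' ⟨l, 0⟩ ^ ν a l : K) ^ m a =
        ∏ j, (∏ l, x' ⟨l, 0⟩ ^ d j l : K) ^ κ a j := by
      rw [← Finset.prod_pow]
      have h2 : ∀ j, (∏ l, x' ⟨l, 0⟩ ^ d j l : K) ^ κ a j =
          ∏ l, x' ⟨l, 0⟩ ^ (κ a j * d j l) := by
        intro j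
        rw [← Finset.prod_zpow]
        refine Finset.prod_congr rfl fun l _ => ?_
        rw [mul_comm, zpow_mul, zpow_natCast]
      rw [Finset.prod_congr rfl fun j _ => h2 j, Finset.prod_comm]
      refine Finset.prod_congr rfl fun l _ => ?_
      rw [NCC.GENx.prod_zpow_sum (hx' _), hν a l, mul_comm, zpow_mul, zpow_natCast]
    rw [div_pow, (hc.root a).2, h1, mul_div_assoc]
    congr 1
    unfold monI
    rw [Fintype.prod_sum_type]
    simp only [Sum.elim_inl, Sum.elim_inr, Pi.zero_apply, zpow_zero, Finset.prod_const_one,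
      one_mul]
    rw [← Finset.prod_div_distrib]
    exact Finset.prod_congr rfl fun j _ => (div_zpow _ _ _).symm
  · set L := IntermediateField.adjoin F (Set.range (fun s : (l : Fin k) × Fin (N l) =>
        x' ⟨s.1, s.2.succ⟩ / x' ⟨s.1, 0⟩) ∪ Set.range fun a => w a / ∏ l, x' ⟨l, 0⟩ ^ ν a l)
      with hL
    have hC : ∀ z : ℂ, algebraMap ℂ K z ∈ L := by
      intro z
      rw [IsScalarTower.algebraMap_apply ℂ F K]
      exact L.algebraMap_mem _
    have h1 : ∀ (l : Fin k) (i : Fin (N l + 1)), x' ⟨l, i⟩ / x' ⟨l, 0⟩ ∈ L := by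
      intro l i
      refine Fin.cases ?_ (fun j => ?_) i
      · rw [div_self (hx' _)]
        exact one_mem L
      · exact IntermediateField.subset_adjoin F _ (Or.inl ⟨⟨l, j⟩, rfl⟩)
    have h2 : ∀ s : Coord N, x s / x' ⟨s.1, 0⟩ ∈ L := by
      intro s
      rw [hx s, Finset.sum_div]
      refine sum_mem fun t _ => ?_
      by_cases hst : s.1 = t.1
      · obtain ⟨l, i⟩ := s
        obtain ⟨l', i'⟩ := t
        obtain rfl : l = l' := hst
        rw [mul_div_assoc]
        exact mul_mem (hC _) (h1 l i')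
      · rw [hA s t hst, map_zero, zero_mul, zero_div]
        exact zero_mem L
    have h3 : ∀ l : Fin k, x' ⟨l, 0⟩ ∈ L := by
      intro l
      obtain ⟨i, hi⟩ := hc.one l
      have h4 := h2 ⟨l, i⟩
      rw [hi] at h4
      have h5 := inv_mem h4
      rwa [one_div, inv_inv] at h5
    have h4 : ∀ s, x s ∈ L := by
      intro s
      have h5 := mul_mem (h2 s) (h3 s.1)
      rwa [div_mul_cancel₀ _ (hx' _)] at h5
    have h5 : ∀ a, w a ∈ L := by
      intro a
      have h6 : w a / ∏ l, x' ⟨l, 0⟩ ^ ν a l ∈ L :=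
        IntermediateField.subset_adjoin F _ (Or.inr ⟨a, rfl⟩)
      have h7 : (∏ l, x' ⟨l, 0⟩ ^ ν a l : K) ∈ L := prod_mem fun l _ => zpow_mem (h3 l) _
      have h8 := mul_mem h6 h7
      rwa [div_mul_cancel₀ _ (hP a)] at h8
    rw [eq_top_iff, ← hc.gen, IntermediateField.adjoin_le_iff]
    rintro z (⟨s, rfl⟩ | ⟨a, rfl⟩)
    · exact h4 s
    · exact h5 a

end

end KUM
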