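import Pool.Agent.KUM.Stmts

/-!
Module KUM_NDG (MP_fa3f7f_ag): the system of an abelian cover is nondegenerate.
-/

set_option autoImplicit false

namespace KUM

open MldX MMCI MMCX RMX

noncomputable section

namespace NDG

/-! ### the parts of the exponents -/

section Ex

variable {q n0 w : ℕ}

theorem ex_q (κ : Fin q → ℤ) (a : Fin n0 → ℤ) (μ : Fin w → ℤ) (s : Fin q) :
    ex κ a μ (Fin.castAdd _ s) = κ s := Fin.append_left _ _ _

theorem ex_x (κ : Fin q → ℤ) (a : Fin n0 → ℤ) (μ : Fin w → ℤ) (k : Fin n0) :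
    ex κ a μ (Fin.natAdd q (Fin.castAdd w k)) = a k := by
  rw [ex, Fin.append_right, Fin.append_left]

theorem ex_u (κ : Fin q → ℤ) (a : Fin n0 → ℤ) (μ : Fin w → ℤ) (k : Fin w) :
    ex κ a μ (Fin.natAdd q (Fin.natAdd n0 k)) = μ k := by
  rw [ex, Fin.append_right, Fin.append_right]

end Ex

theorem mon_ne {n : ℕ} {c : Fin n → ℂ} (hc : ∀ k, c k ≠ 0) (a : Fin n → ℤ) : mon c a ≠ 0 :=
  Finset.prod_ne_zero_iff.2 fun i _ => zpow_ne_zero _ (hc i)

theorem mon_zero {n : ℕ} (c : Fin n → ℂ) : mon c 0 = 1 :=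
  Finset.prod_eq_one fun _ _ => zpow_zero _

/-! ### linear algebra -/

/-- The linear equations for the coefficients of a relation. -/
theorem star {q n0 w r0 : ℕ} (P : Fin q → Prop) (γ : Fin (q + (r0 + w)) → Fin (q + (n0 + w)) → ℂ)
    (α : Fin q → ℂ) (hα : ∀ s, α s ≠ 0) (β : Fin w → ℂ) (hβ : ∀ a, β a ≠ 0)
    (hs0 : ∀ s k, ¬P s → γ (Fin.castAdd _ s) k = 0)
    (hs1 : ∀ s k, P s → γ (Fin.castAdd _ s) k = (ex (Pi.single s 1) 0 0 k : ℤ) * α s)
    (his : ∀ i s, γ (Fin.natAdd q (Fin.castAdd w i)) (Fin.castAdd _ s) = 0)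
    (hia : ∀ i a, γ (Fin.natAdd q (Fin.castAdd w i)) (Fin.natAdd q (Fin.natAdd n0 a)) = 0)
    (hix : LinearIndependent ℂ fun i k =>
      γ (Fin.natAdd q (Fin.castAdd w i)) (Fin.natAdd q (Fin.castAdd w k)))
    (ha : ∀ a a', γ (Fin.natAdd q (Fin.natAdd r0 a)) (Fin.natAdd q (Fin.natAdd n0 a')) =
      ((Pi.single a 1 : Fin w → ℤ) a' : ℤ) * β a)
    (t : Fin (q + (r0 + w)) → ℂ) (ht : ∀ k, ∑ i, t i * γ i k = 0) :
    (∀ a, t (Fin.natAdd q (Fin.natAdd r0 a)) = 0) ∧ (∀ i, t (Fin.natAdd q (Fin.castAdd w i)) = 0) ∧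
      ∀ s, P s → t (Fin.castAdd _ s) = 0 := by
  have hsplit : ∀ k, (∑ s : Fin q, t (Fin.castAdd _ s) * γ (Fin.castAdd _ s) k) +
      ((∑ i : Fin r0, t (Fin.natAdd q (Fin.castAdd w i)) * γ (Fin.natAdd q (Fin.castAdd w i)) k) +
        ∑ a : Fin w, t (Fin.natAdd q (Fin.natAdd r0 a)) * γ (Fin.natAdd q (Fin.natAdd r0 a)) k) = 0 := by
    intro k
    rw [← ht k, Fin.sum_univ_add, Fin.sum_univ_add]
  have hs2 : ∀ s (k : Fin (n0 + w)), γ (Fin.castAdd _ s) (Fin.natAdd q k) = 0 := by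
    intro s k
    by_cases h : P s
    · rw [hs1 s _ h]
      have h0 : ex (Pi.single s 1) (0 : Fin n0 → ℤ) (0 : Fin w → ℤ) (Fin.natAdd q k) = 0 := by
        refine Fin.addCases (fun k => ?_) (fun k => ?_) k
        · rw [ex_x]; rfl
        · rw [ex_u]; rfl
      rw [h0, Int.cast_zero, zero_mul]
    · exact hs0 s _ h
  have h1 : ∀ a, t (Fin.natAdd q (Fin.natAdd r0 a)) = 0 := by
    intro a
    have h := hsplit (Fin.natAdd q (Fin.natAdd n0 a))
    rw [Finset.sum_eq_zero fun s _ => by rw [hs2, mul_zero], zero_add,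
      Finset.sum_eq_zero fun i _ => by rw [hia, mul_zero], zero_add,
      Finset.sum_eq_single a] at h
    · rw [ha, Pi.single_eq_same, Int.cast_one, one_mul] at h
      exact (mul_eq_zero.1 h).resolve_right (hβ a)
    · intro b _ hb
      rw [ha, Pi.single_eq_of_ne' hb, Int.cast_zero, zero_mul, mul_zero]
    · exact fun h => absurd (Finset.mem_univ _) h
  refine ⟨h1, ?_, ?_⟩
  · have h2 : ∀ k, ∑ i : Fin r0, t (Fin.natAdd q (Fin.castAdd w i)) *
        γ (Fin.natAdd q (Fin.castAdd w i)) (Fin.natAdd q (Fin.castAdd w k)) = 0 := by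
      intro k
      have h := hsplit (Fin.natAdd q (Fin.castAdd w k))
      rw [Finset.sum_eq_zero fun s _ => by rw [hs2, mul_zero], zero_add] at h
      rwa [Finset.sum_eq_zero (s := Finset.univ) (f := fun a : Fin w =>
        t (Fin.natAdd q (Fin.natAdd r0 a)) * γ (Fin.natAdd q (Fin.natAdd r0 a)) _)
        fun a _ => by rw [h1, zero_mul], add_zero] at h
    refine Fintype.linearIndependent_iff.1 hix (fun i => t (Fin.natAdd q (Fin.castAdd w i))) ?_
    funext k
    rw [Finset.sum_apply]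
    exact h2 k
  · intro s hP
    have h := hsplit (Fin.castAdd _ s)
    rw [Finset.sum_eq_zero (s := Finset.univ) (f := fun a : Fin w =>
        t (Fin.natAdd q (Fin.natAdd r0 a)) * γ (Fin.natAdd q (Fin.natAdd r0 a)) _)
        fun a _ => by rw [h1, zero_mul], add_zero,
      Finset.sum_eq_zero (s := Finset.univ) (f := fun i : Fin r0 =>
        t (Fin.natAdd q (Fin.castAdd w i)) * γ (Fin.natAdd q (Fin.castAdd w i)) _)
        fun i _ => by rw [his, mul_zero], add_zero, Finset.sum_eq_single s] at h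
    · rw [hs1 s _ hP, ex_q, Pi.single_eq_same, Int.cast_one, one_mul] at h
      exact (mul_eq_zero.1 h).resolve_right (hα s)
    · intro b _ hb
      by_cases h : P b
      · rw [hs1 b _ h, ex_q, Pi.single_eq_of_ne' hb, Int.cast_zero, zero_mul, mul_zero]
      · rw [hs0 b _ h, mul_zero]
    · exact fun h => absurd (Finset.mem_univ _) h

end NDG

open NDG in
/-- **KUM_NDG.** -/
theorem t_NDG (hEVP : S_EVP) (hEVA : S_EVA) (hINI : S_INI) (hUPE : S_UPE) : S_NDG := by
  intro q n0 w r0 b R _ _ _ f0 d ε p κ lam hFT hf0 hd hε hp hnd m hm hy hind ν M hM hMm hG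
  obtain ⟨χ, c, hc, hχ, hev⟩ := hEVP hFT m M hM hMm
  obtain ⟨e1, e2, e3, -, e5, -, -, e8, e9, e10, e11, -, e13⟩ := hEVA χ c hc
  obtain ⟨I1, I2, I3⟩ := hINI f0 d ε p κ lam hf0 hd (fun a => (hε a).ne_zero) hp ν
  generalize hGd : (fun i => initFormR (sys f0 d ε p κ lam i) ν) = G at hG
  have hG' : ∀ i, initFormR (sys f0 d ε p κ lam i) ν = G i := fun i => congrFun hGd i
  simp only [hG'] at I1 I2 I3
  have hG0 : ∀ i, evp χ c (G i) = 0 := fun i => (hev _).1 (hG i)
  -- additive maps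
  let E : LaurentR R (q + (n0 + w)) →+ ℂ := AddMonoidHom.mk' (evp χ c) e3
  let Rt : LaurentR R (q + (n0 + w)) →+ R := AddMonoidHom.mk' (ret c) e5
  let Dr : Fin (q + (n0 + w)) → (LaurentR R (q + (n0 + w)) →+ LaurentR R (q + (n0 + w))) :=
    fun k => AddMonoidHom.mk' (derR k) (e10 k)
  have hE : ∀ h, evp χ c h = E h := fun _ => rfl
  have hR : ∀ h, ret c h = Rt h := fun _ => rfl
  have hD : ∀ k h, derR k h = Dr k h := fun _ _ => rfl
  have hχε : ∀ a, χ (ε a) ≠ 0 := fun a => ((hε a).map χ).ne_zero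
  -- the coordinates over the base
  have A1 : ∀ s, ¬ nq ν s < 0 := by
    intro s h
    have h1 := hG0 (Fin.castAdd _ s)
    rw [(I1 s).1 h, e1, map_one, one_mul] at h1
    exact mon_ne hc _ h1
  have A2 : ∀ s, 0 < nq ν s → d s ∈ m := by
    intro s h
    have h1 := hG0 (Fin.castAdd _ s)
    rw [(I1 s).2.1 h, hE, map_neg, ← hE, e1, mon_zero, mul_one, neg_eq_zero] at h1
    exact (hχ _).2 h1
  -- the roots
  have A3 : ∀ a, G (Fin.natAdd q (Fin.natAdd r0 a)) =
      AddMonoidAlgebra.single (ex 0 0 (Pi.single a (p a : ℤ))) 1 -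
        AddMonoidAlgebra.single (ex (κ a) (lam a) 0) (ε a) := by
    intro a
    have h1 := hG0 (Fin.natAdd q (Fin.natAdd r0 a))
    rcases lt_trichotomy ((p a : ℤ) * nu ν a) (pair (nq ν) (κ a) + pair (nx ν) (lam a)) with h | h | h
    · rw [(I3 a).1 h, e1, map_one, one_mul] at h1
      exact absurd h1 (mon_ne hc _)
    · exact (I3 a).2.2 h
    · rw [(I3 a).2.1 h, hE, map_neg, ← hE, e1, neg_eq_zero] at h1
      exact absurd h1 (mul_ne_zero (hχε a) (mon_ne hc _))
  -- the given system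
  have A4 : LinearIndependent ℂ fun i => grad (fun k => c (Fin.natAdd q (Fin.castAdd w k)))
      (initForm (f0 i) (nx ν)) := by
    refine hnd (nx ν) _ (fun k => hc _) fun i => ?_
    have h1 := hG0 (Fin.natAdd q (Fin.castAdd w i))
    rw [I2 i, (hUPE χ c _).1] at h1
    exact h1
  -- the relations
  have key : ∀ t : Fin (q + (r0 + w)) → ℂ, (∀ k, evp χ c (∑ i, t i • derR k (G i)) = 0) →
      (∀ a, t (Fin.natAdd q (Fin.natAdd r0 a)) = 0) ∧
      (∀ i, t (Fin.natAdd q (Fin.castAdd w i)) = 0) ∧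
      ∀ s, nq ν s = 0 → t (Fin.castAdd _ s) = 0 := by
    intro t ht
    refine star (fun s => nq ν s = 0) (fun i k => evp χ c (derR k (G i)))
      (fun s => mon c (ex (Pi.single s 1) 0 0)) (fun s => mon_ne hc _)
      (fun a => (p a : ℂ) * mon c (ex 0 0 (Pi.single a (p a : ℤ))))
      (fun a => mul_ne_zero (by exact_mod_cast (hp a).ne') (mon_ne hc _)) ?_ ?_ ?_ ?_ ?_ ?_ t ?_
    · intro s k h
      have h0 : 0 < nq ν s := lt_of_le_of_ne (not_lt.1 (A1 s)) (Ne.symm h)
      show evp χ c (derR k (G (Fin.castAdd _ s))) = 0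
      rw [(I1 s).2.1 h0, hD, map_neg, ← hD, e9, hE, map_neg, ← hE, e1]
      simp
    · intro s k h
      show evp χ c (derR k (G (Fin.castAdd _ s))) = _
      rw [(I1 s).2.2 h, hD, map_sub, ← hD, ← hD, e9, e9, hE, map_sub, ← hE, ← hE, e1, e1]
      simp
    · intro i s
      show evp χ c (derR _ (G (Fin.natAdd q (Fin.castAdd w i)))) = 0
      rw [I2 i, (hUPE χ c _).2.2.1, hE, map_zero]
    · intro i a
      show evp χ c (derR _ (G (Fin.natAdd q (Fin.castAdd w i)))) = 0
      rw [I2 i, (hUPE χ c _).2.2.2.1, hE, map_zero]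
    · have h1 : (fun (i : Fin r0) (k : Fin n0) => evp χ c (derR (Fin.natAdd q (Fin.castAdd w k))
          (G (Fin.natAdd q (Fin.castAdd w i))))) =
          fun i => grad (fun k => c (Fin.natAdd q (Fin.castAdd w k))) (initForm (f0 i) (nx ν)) := by
        funext i k
        rw [I2 i, (hUPE χ c _).2.1]
      exact h1 ▸ A4
    · intro a a'
      show evp χ c (derR _ (G (Fin.natAdd q (Fin.natAdd r0 a)))) = _
      rw [A3 a, hD, map_sub, ← hD, ← hD, e9, e9, hE, map_sub, ← hE, ← hE, e1, e1, ex_u, ex_u]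
      by_cases h : a = a'
      · subst h
        simp
      · simp [Pi.single_eq_of_ne' h]
    · intro k
      have h1 := ht k
      rw [hE, map_sum] at h1
      rw [← h1]
      refine Finset.sum_congr rfl fun i _ => ?_
      rw [← hE, (e8 _ _).1]
  by_cases hds : ∃ s, d s ∈ m
  · left
    refine ⟨hy hds, fun t ht => ?_⟩
    obtain ⟨h1, h2⟩ := e13 m M hχ hev _ ht
    obtain ⟨k1, k2, k3⟩ := key t fun k => by
      rw [← h1 k]
      congr 1
      rw [hD, map_sum]
      refine Finset.sum_congr rfl fun i _ => ?_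
      rw [← hD, e11]
    have h3 : ret c (∑ i, t i • G i) = - ∑ s : Fin q, t (Fin.castAdd _ s) • d s := by
      rw [hR, map_sum, Fin.sum_univ_add, Fin.sum_univ_add]
      have z1 : ∑ i : Fin r0, Rt (t (Fin.natAdd q (Fin.castAdd w i)) •
          G (Fin.natAdd q (Fin.castAdd w i))) = 0 :=
        Finset.sum_eq_zero fun i _ => by rw [k2, zero_smul, map_zero]
      have z2 : ∑ a : Fin w, Rt (t (Fin.natAdd q (Fin.natAdd r0 a)) •
          G (Fin.natAdd q (Fin.natAdd r0 a))) = 0 :=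
        Finset.sum_eq_zero fun i _ => by rw [k1, zero_smul, map_zero]
      rw [z1, z2, add_zero, add_zero, ← Finset.sum_neg_distrib]
      refine Finset.sum_congr rfl fun s _ => ?_
      rcases (not_lt.1 (A1 s)).eq_or_lt with h | h
      · rw [k3 s h.symm, zero_smul, zero_smul, map_zero, neg_zero]
      · rw [← hR, (e8 _ _).2, (I1 s).2.1 h, hR, map_neg, ← hR, e2, mon_zero, one_smul, smul_neg]
    rw [h3, neg_mem_iff] at h2
    have h4 := hind (fun s => t (Fin.castAdd _ s)) (fun s hs => by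
      rcases (not_lt.1 (A1 s)).eq_or_lt with h | h
      · exact k3 s h.symm
      · exact absurd (A2 s h) hs) h2
    funext i
    refine Fin.addCases (fun s => congrFun h4 s) (fun j => ?_) i
    exact Fin.addCases (fun i => k2 i) (fun a => k1 a) j
  · right
    intro t ht
    obtain ⟨k1, k2, k3⟩ := key t fun k => (hev _).1 (ht k)
    funext i
    refine Fin.addCases (fun s => ?_) (fun j => ?_) i
    · rcases (not_lt.1 (A1 s)).eq_or_lt with h | h
      · exact k3 s h.symm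
      · exact absurd ⟨s, A2 s h⟩ hds
    · exact Fin.addCases (fun i => k2 i) (fun a => k1 a) j

end

end KUM
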