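import Pool.Agent.KUM.Stmts

/-!
# UPE: values of `up R f`
-/

set_option autoImplicit false

namespace KUM

open MldX MMCI MMCX RMX

noncomputable section

namespace UPE

variable {R : Type} [CommRing R] [Algebra ℂ R] {n : ℕ}

/-- `evp` as an additive homomorphism. -/
def evpH (χ : R →ₐ[ℂ] ℂ) (c : Fin n → ℂ) : LaurentR R n →+ ℂ where
  toFun := evp χ c
  map_zero' := by
    simp [evp]
  map_add' h h' := by
    unfold evp
    rw [AddMonoidAlgebra.coeff_add]
    apply Finsupp.sum_add_index'
    · intro a
      rw [map_zero, zero_mul]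
    · intro a z z'
      rw [map_add, add_mul]

/-- `ret` as an additive homomorphism. -/
def retH (c : Fin n → ℂ) : LaurentR R n →+ R where
  toFun := ret c
  map_zero' := by
    simp [ret]
  map_add' h h' := by
    unfold ret
    rw [AddMonoidAlgebra.coeff_add]
    apply Finsupp.sum_add_index'
    · intro a
      rw [smul_zero]
    · intro a z z'
      rw [smul_add]

/-- `derR` as an additive homomorphism. -/
def derH (k : Fin n) : LaurentR R n →+ LaurentR R n where
  toFun := derR k
  map_zero' := by
    simp [derR]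
  map_add' h h' := by
    unfold derR
    rw [AddMonoidAlgebra.coeff_add]
    apply Finsupp.sum_add_index'
    · intro a
      rw [mul_zero, AddMonoidAlgebra.single_zero]
    · intro a z z'
      rw [mul_add, AddMonoidAlgebra.single_add]

theorem evp_single (χ : R →ₐ[ℂ] ℂ) (c : Fin n → ℂ) (a : Fin n → ℤ) (z : R) :
    evp χ c (AddMonoidAlgebra.single a z) = χ z * mon c a := by
  unfold evp
  rw [AddMonoidAlgebra.coeff_single, Finsupp.sum_single_index]
  rw [map_zero, zero_mul]

theorem ret_single (c : Fin n → ℂ) (a : Fin n → ℤ) (z : R) :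
    ret c (AddMonoidAlgebra.single a z) = mon c a • z := by
  unfold ret
  rw [AddMonoidAlgebra.coeff_single, Finsupp.sum_single_index]
  rw [smul_zero]

omit [Algebra ℂ R] in
theorem derR_single (k : Fin n) (a : Fin n → ℤ) (z : R) :
    derR k (AddMonoidAlgebra.single a z : LaurentR R n) =
      AddMonoidAlgebra.single a ((a k : R) * z) := by
  unfold derR
  rw [AddMonoidAlgebra.coeff_single, Finsupp.sum_single_index]
  rw [mul_zero, AddMonoidAlgebra.single_zero]

variable {q n0 w : ℕ}

theorem ex_q (κ : Fin q → ℤ) (a : Fin n0 → ℤ) (μ : Fin w → ℤ) (s : Fin q) :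
    ex κ a μ (Fin.castAdd _ s) = κ s := by
  simp [ex]

theorem ex_x (κ : Fin q → ℤ) (a : Fin n0 → ℤ) (μ : Fin w → ℤ) (k : Fin n0) :
    ex κ a μ (Fin.natAdd q (Fin.castAdd w k)) = a k := by
  simp [ex]

theorem ex_u (κ : Fin q → ℤ) (a : Fin n0 → ℤ) (μ : Fin w → ℤ) (b : Fin w) :
    ex κ a μ (Fin.natAdd q (Fin.natAdd n0 b)) = μ b := by
  simp [ex]

theorem mon_ex (c : Fin (q + (n0 + w)) → ℂ) (a : Fin n0 → ℤ) :
    mon c (ex 0 a 0) = mon (fun k => c (Fin.natAdd q (Fin.castAdd w k))) a := by
  unfold mon
  rw [Fin.prod_univ_add, Fin.prod_univ_add]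
  simp only [ex_q, ex_x, ex_u, Pi.zero_apply, zpow_zero, Finset.prod_const_one, one_mul, mul_one]

theorem up_eq (R : Type) [CommRing R] [Algebra ℂ R] (f : Laurent n0) :
    up (q := q) (w := w) R f = ∑ a ∈ f.coeff.support,
      AddMonoidAlgebra.single (ex 0 a 0) (algebraMap ℂ R (f.coeff a)) := rfl

end UPE

open UPE in
theorem t_UPE : S_UPE := by
  intro q n0 w R _ _ χ c f
  refine ⟨?_, ?_, ?_, ?_, ?_⟩
  · have h : evpH χ c (up (q := q) (w := w) R f) =
        ev (fun k => c (Fin.natAdd q (Fin.castAdd w k))) f := by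
      rw [up_eq, map_sum]
      unfold MMCI.ev Finsupp.sum
      apply Finset.sum_congr rfl
      intro a _
      show evp χ c _ = _
      rw [evp_single, mon_ex, AlgHom.commutes]
    exact h
  · intro k
    have h : evpH χ c (derH (Fin.natAdd q (Fin.castAdd w k)) (up (q := q) (w := w) R f)) =
        grad (fun k => c (Fin.natAdd q (Fin.castAdd w k))) f k := by
      rw [up_eq, map_sum, map_sum]
      unfold grad Finsupp.sum
      apply Finset.sum_congr rfl
      intro a _
      show evp χ c (derR _ _) = _
      rw [derR_single, evp_single, mon_ex, ex_x, map_mul, AlgHom.commutes, map_intCast]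
      ring
    exact h
  · intro s
    have h : derH (Fin.castAdd _ s) (up (q := q) (w := w) R f) = 0 := by
      rw [up_eq, map_sum]
      apply Finset.sum_eq_zero
      intro a _
      show derR _ _ = _
      rw [derR_single, ex_q, Pi.zero_apply, Int.cast_zero, zero_mul,
        AddMonoidAlgebra.single_zero]
    exact h
  · intro b
    have h : derH (Fin.natAdd q (Fin.natAdd n0 b)) (up (q := q) (w := w) R f) = 0 := by
      rw [up_eq, map_sum]
      apply Finset.sum_eq_zero
      intro a _
      show derR _ _ = _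
      rw [derR_single, ex_u, Pi.zero_apply, Int.cast_zero, zero_mul,
        AddMonoidAlgebra.single_zero]
    exact h
  · refine ⟨∑ a ∈ f.coeff.support, mon c (ex 0 a 0) * f.coeff a, ?_⟩
    have h : retH c (up (q := q) (w := w) R f) = algebraMap ℂ R
        (∑ a ∈ f.coeff.support, mon c (ex 0 a 0) * f.coeff a) := by
      rw [up_eq, map_sum, map_sum]
      apply Finset.sum_congr rfl
      intro a _
      show ret c _ = _
      rw [ret_single, Algebra.smul_def, map_mul]
    exact h

end

end KUM
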