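import Pool.Agent.KUM.KUMA
import Pool.Agent.KUM.COVA
import Pool.Agent.KUM.EVP
import Pool.Agent.KUM.EVA
import Pool.Agent.KUM.INI
import Pool.Agent.KUM.UPE
import Pool.Agent.KUM.NDG
import Pool.Agent.KUM.LEQ
import Pool.Agent.KUM.FAM
import Pool.Agent.KUM.PRNA
import Pool.Agent.KUM.CNG
import Pool.Agent.KUM.CFN
import Pool.Agent.KUM.PTM
import Pool.Agent.KUM.GENR
import Pool.Agent.NCC.AsmB
import Pool.Agent.RMT.AsmC

/-!
# KUM: the theorem for abelian covers, without hypotheses
-/

set_option autoImplicit false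

namespace KUM

open MvPolynomial NCC MldX MMCI MMCX RMX

noncomputable section

theorem kummer : S_KUM :=
  t_KUM finalU (t_FAM (t_NDG t_EVP t_EVA t_INI t_UPE) t_LEQ) (t_CFN t_PRN t_CNG)

/-- Abelian covers of `B × Z_0` branched along simple normal crossings divisors. -/
theorem cover : S_COV :=
  t_COV t_SUB c_CRD t_PUL c_NDG t_AFF t_GENR kummer

end

end KUM
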