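import Pool.Agent.KUM.Defs
import Pool.Agent.NCC.Defs

/-!
# Abelian covers of `B × Z_0` (MP_fa3f7f_ag): definitions
-/

set_option autoImplicit false

namespace KUM

open MvPolynomial NCC MldX MMCI MMCX RMX

noncomputable section

variable {k q q' r v : ℕ} {N : Fin k → ℕ}
  {F K : Type} [Field F] [Field K] [Algebra ℂ F] [Algebra ℂ K] [Algebra F K] [IsScalarTower ℂ F K]

/-- `B` is a projective variety with terminal singularities, of dimension `b`, with the function field
`F`, and `K` is the function field of a variety `X` of dimension `b + n > 0` with a finite morphism to an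
irreducible component `Z` of `B × Z_0`, `Z_0 = {g_1 = … = g_r = 0}` of dimension `n = ∑ N_l - r`; `x` are
homogeneous coordinates of the generic point of the component of `Z_0` (one of the coordinates in each
factor is one), which does not lie on the `{h_j = 0}`. The extension `K / ℂ(Z)` is generated by the
functions `w_a`, `w_a ^ m_a = γ_a ∏_j h_j(x) ^ κ_(a, j)`, where `m_a` divides the multidegree of this product,
`γ_a ∈ F` and `div(γ_a) = ∑_s δ_(a, s) D_s + m_a E_a` with Cartier divisors `E_a` on `B`: it is abelian, and `X`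
(normal) is étale over the complement of the divisors `D_s × Z_0`, `B × {h_j = 0}`. The divisors `D_s` on `B`
have normal crossings. -/
structure IsCover (b n : ℕ) (B : ProjModel F) (D : (j : Fin (B.N + 1)) → Fin q' → B.ring j)
    (E : Fin (B.N + 1) → Fin v → F) (g : Fin r → Poly N) (h : Fin q → Poly N)
    (d : Fin q → Fin k → ℕ) (x : Coord N → K) (w : Fin v → K) (m : Fin v → ℕ)
    (κ : Fin v → Fin q → ℤ) (γ : Fin v → F) (δ : Fin v → Fin q' → ℤ) : Prop where
  dim_eq : ∑ l, N l = r + n
  pos : 0 < b + n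
  dim_base : Algebra.trdeg ℂ F = (b : Cardinal)
  terminal : Terminal b B
  cross : IsCrossing b B D
  dim : Algebra.trdeg ℂ K = ((b + n : ℕ) : Cardinal)
  one : ∀ l, ∃ i, x ⟨l, i⟩ = 1
  zero : ∀ i, aeval x (g i) = 0
  ne : ∀ j, aeval x (h j) ≠ 0
  root : ∀ a, 0 < m a ∧ w a ^ m a = algebraMap F K (γ a) * ∏ j, aeval x (h j) ^ κ a j
  unram : ∀ a l, (m a : ℤ) ∣ ∑ j, κ a j * d j l
  bundle : IsBundle B E
  div : ∀ (j : Fin (B.N + 1)) (a : Fin v), γ a ≠ 0 ∧ ∃ ε : B.ring j, IsUnit ε ∧
    (ε : F) * (∏ s, (D j s : F) ^ δ a s) * E j a ^ m a = γ a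
  gen : IntermediateField.adjoin F (Set.range x ∪ Set.range w) = ⊤

end

end KUM
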