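import Pool.Agent.RMT.DefsU

/-!
# Abelian covers (MP_fa3f7f_ag): definitions and the system

`B` is a projective variety with the function field `F`, `D_1, …, D_q` are effective Cartier divisors on
`B`, with the equations `d j s ∈ B.ring j` on the charts. `f0` is a system of Laurent polynomials over
`ℂ` in `n0` variables. The function field `K ⊇ F` is generated by `x_1, …, x_(n0)`, with `f0 (x) = 0`,
and by roots `u_a` of order `p_a` of functions `g_a x^(λ_a)`, `g_a ∈ F`,
`div(g_a) = ∑ κ_(a,s) D_s + p_a E_a`, `E_a` a Cartier divisor on `B`.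
The torus bundle has the coordinates `X_s` (a section of `O(D_s)`, over the chart `j` it is `X_s d_(j,s)`,
and the value of `X_s` is one), `x_k` and `u_a` (over the chart `j` it is `u_a / E_(j,a)`).
-/

set_option autoImplicit false

namespace RMX

open MldX MMCI MMCX

noncomputable section

/-- `D_1, …, D_q` are effective Cartier divisors on `B`, with the equations `d j s` on the chart `j`, with
normal crossings: near a point of their union `B` is smooth, and the equations of the `D_s` which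
contain the point are part of a system of local coordinates. -/
structure IsCrossing {F : Type} [Field F] [Algebra ℂ F] {q : ℕ} (b : ℕ) (B : ProjModel F)
    (d : (j : Fin (B.N + 1)) → Fin q → B.ring j) : Prop where
  bundle : IsBundle B fun j s => (d j s : F)
  smooth : ∀ (j : Fin (B.N + 1)) (m : Ideal (B.ring j)), m.IsMaximal → (∃ s, d j s ∈ m) →
    ∃ y : Fin b → B.ring j, m = Ideal.span (Set.range y) ⊔ m ^ 2
  indep : ∀ (j : Fin (B.N + 1)) (m : Ideal (B.ring j)), m.IsMaximal → ∀ t : Fin q → ℂ,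
    (∀ s, d j s ∉ m → t s = 0) → ∑ s, t s • d j s ∈ m ^ 2 → t = 0

/-- The divisor `D_s` is nef. -/
def CrossNef {F : Type} [Field F] [Algebra ℂ F] {q : ℕ} (b : ℕ) (B : ProjModel F)
    (d : (j : Fin (B.N + 1)) → Fin q → B.ring j) (s : Fin q) : Prop :=
  NefT b B (fun j s => (d j s : F)) (fun i : Fin 0 => i.elim0) 0 (fun i => i.elim0) (Pi.single s 1)

/-- The divisor `D_s` is semiample. -/
def CrossSemiample {F : Type} [Field F] [Algebra ℂ F] {q : ℕ} (b : ℕ) (B : ProjModel F)
    (d : (j : Fin (B.N + 1)) → Fin q → B.ring j) (s : Fin q) : Prop :=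
  SemiampleT b B (fun j s => (d j s : F)) (fun i : Fin 0 => i.elim0) 0 (fun i => i.elim0)
    (Pi.single s 1)

end

end RMX

namespace KUM

open MldX MMCI MMCX RMX

noncomputable section

variable {q n0 w r0 : ℕ}

/-- The exponent with the parts `κ`, `a`, `μ`. -/
def ex (κ : Fin q → ℤ) (a : Fin n0 → ℤ) (μ : Fin w → ℤ) : Fin (q + (n0 + w)) → ℤ :=
  Fin.append κ (Fin.append a μ)

/-- The parts of a weight. -/
def nq (ν : Fin (q + (n0 + w)) → ℤ) (s : Fin q) : ℤ := ν (Fin.castAdd _ s)
def nx (ν : Fin (q + (n0 + w)) → ℤ) (k : Fin n0) : ℤ := ν (Fin.natAdd q (Fin.castAdd w k))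
def nu (ν : Fin (q + (n0 + w)) → ℤ) (a : Fin w) : ℤ := ν (Fin.natAdd q (Fin.natAdd n0 a))

/-- The Laurent polynomial `f0` over `ℂ` as a Laurent polynomial over `R` in all the variables. -/
def up (R : Type) [CommRing R] [Algebra ℂ R] (f : Laurent n0) : LaurentR R (q + (n0 + w)) :=
  f.coeff.sum fun a c => AddMonoidAlgebra.single (ex 0 a 0) (algebraMap ℂ R c)

/-- The system with the coefficients `d s` and `ε a`. -/
def sys {R : Type} [CommRing R] [Algebra ℂ R] (f0 : Fin r0 → Laurent n0) (d : Fin q → R)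
    (ε : Fin w → R) (p : Fin w → ℕ) (κ : Fin w → Fin q → ℤ) (lam : Fin w → Fin n0 → ℤ) :
    Fin (q + (r0 + w)) → LaurentR R (q + (n0 + w)) :=
  Fin.append
    (fun s => AddMonoidAlgebra.single (ex (Pi.single s 1) 0 0) 1 - AddMonoidAlgebra.single 0 (d s))
    (Fin.append (fun i => up R (f0 i))
      (fun a => AddMonoidAlgebra.single (ex 0 0 (Pi.single a (p a : ℤ))) 1 -
        AddMonoidAlgebra.single (ex (κ a) (lam a) 0) (ε a)))

variable {F K : Type} [Field F] [Field K] [Algebra ℂ F] [Algebra ℂ K] [Algebra F K]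
  [IsScalarTower ℂ F K]

/-- The trivializations. -/
def tt (n0 : ℕ) (B : ProjModel F) (d : (j : Fin (B.N + 1)) → Fin q → B.ring j)
    (E : Fin (B.N + 1) → Fin w → F) (j : Fin (B.N + 1)) : Fin (q + (n0 + w)) → F :=
  Fin.append (fun s => (d j s : F)⁻¹) (Fin.append (fun _ : Fin n0 => 1) (E j))

/-- The point. -/
def pt (x : Fin n0 → K) (u : Fin w → K) : Fin (q + (n0 + w)) → K :=
  Fin.append (fun _ => 1) (Fin.append x u)

/-- The data of the theorem. -/
structure IsKummer (b e : ℕ) (B : ProjModel F) (d : (j : Fin (B.N + 1)) → Fin q → B.ring j)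
    (E : Fin (B.N + 1) → Fin w → F) (f0 : Fin r0 → Laurent n0) (x : Fin n0 → K) (p : Fin w → ℕ)
    (κ : Fin w → Fin q → ℤ) (lam : Fin w → Fin n0 → ℤ) (g : Fin w → F) (u : Fin w → K) : Prop where
  pos : 0 < b + e
  dim_base : Algebra.trdeg ℂ F = (b : Cardinal)
  terminal : Terminal b B
  cross : IsCrossing b B d
  dim_eq : n0 = r0 + e
  f_ne : ∀ i, f0 i ≠ 0
  nondeg : ∀ ν : Fin n0 → ℤ, Nondegenerate f0 ν
  x_ne : ∀ k, x k ≠ 0
  zero : ∀ i, ev x (f0 i) = 0
  p_pos : ∀ a, 0 < p a
  g_ne : ∀ a, g a ≠ 0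
  bundle : IsBundle B E
  unit : ∀ (j : Fin (B.N + 1)) (a : Fin w), ∃ ε : B.ring j, IsUnit ε ∧
    (ε : F) * mon (fun s => (d j s : F)) (κ a) * E j a ^ p a = g a
  pow : ∀ a, u a ^ p a = algebraMap F K (g a) * mon x (lam a)
  gen : IntermediateField.adjoin F (Set.range x ∪ Set.range u) = ⊤
  dim : Algebra.trdeg ℂ K = ((b + e : ℕ) : Cardinal)

end

end KUM
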