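import Pool.Agent.KUM.Stmts

/-!
# KUM: the theorem, from the statements
-/

set_option autoImplicit false

namespace KUM

open MldX MMCI MMCX RMX

noncomputable section

theorem t_KUM : M_KUM := by
  intro hFINU hFAM hCFN F K _ _ _ _ _ _ b e q n0 w r0 B d E f0 x p κ lam g u h hB hD
  have hfam := hFAM B d E f0 x p κ lam g u h
  have hd0 : ∀ j s, d j s ≠ 0 := by
    intro j s h0
    have := (h.cross.bundle j j s).1
    apply this
    show ((d j s : B.ring j) : F) = 0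
    rw [h0]
    rfl
  have hE0 : ∀ j a, E j a ≠ 0 := fun j a => (h.bundle j j a).1
  have hn : ∀ j (z : F), IsIntegral (B.ring j) z → z ∈ B.ring j := by
    intro j z hz
    exact (h.terminal j).1 z hz
  obtain ⟨c1, c2⟩ := hCFN B d E f0 p κ lam g h.dim_base hn hd0 hE0 h.p_pos h.g_ne h.unit
  obtain ⟨Y, hY, hY'⟩ := hFINU B (tt n0 B d E) (fF f0 p κ lam g) (pt x u) hfam
    (Or.inl ⟨hB, Or.inr (Or.inr (c1 hD))⟩)
  refine ⟨Y, hY, ?_⟩
  rcases hY' with ⟨h1, h2⟩ | ⟨h1, -⟩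
  · exact Or.inl ⟨h1, fun h3 h4 => h2 (Or.inl ⟨h3, Or.inr (Or.inr (c2 h4))⟩)⟩
  · exact Or.inr h1

end

end KUM
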